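import Pool.Agent.HP25.OS.F
import Pool.Agent.TH872.Sq.W14
import Pool.Agent.W93.TD5

set_option autoImplicit false

/-! Joint correlations of the von Mangoldt and the Liouville function at laws of integers close to random real numbers. -/

namespace Pool.Agent.HP25.OS
open Finset
open Pool.Agent.H807R2.Dav
open Pool.Agent.H373R2.T7
open Pool.Agent.W93.DG
open Pool.Agent.TH872.Sq
open Pool.Agent.HP25.PD
open Pool.Agent.N469.PT (OneLaw)
open Pool.Agent.W93.LM (Nice)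
open Pool.Agent.W93.TD (HLs avg_w total_w)

/-- one random shift of a nice function, arbitrary coefficients -/
theorem nl_nice (q : ℕ) (hq : 1 ≤ q) (C₀ : ℝ) (hC₀ : 0 < C₀) (F F₀ W U : ℕ) (hF₀ : 1 ≤ F₀) (f : ℕ → ℝ)
    (hf : Nice (fun n => ((f n : ℝ) : ℂ))) : ∃ N₀ : ℕ, ∀ N : ℕ, N₀ ≤ N → ∀ (Ω : Finset ℕ) (p : ℕ → ℝ), NL q C₀ F F₀ W N Ω p →
    ∀ Kc : ℝ, 0 ≤ Kc → ∀ G : ℕ → ℝ, (∀ n ∈ Icc 1 N, |G n| ≤ Kc) →
    ∑ v ∈ Ω, p v * |∑ n ∈ Icc 1 N, G n * f (n + v)| ≤ Kc * (N / Real.log N ^ U) := by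
  obtain ⟨K₀, hK₀⟩ := one_nice (ι := ℕ) q hq C₀ hC₀ f hf F F₀ W U hF₀
  refine ⟨F₀ * K₀ + 1, fun N hN Ω p' hL Kc hKc G hG => ?_⟩
  obtain ⟨Y, s, p, g, φ, hN1, hN2, hMo, hφ, hsz, rfl, hp'⟩ := hL
  have hYK : K₀ ≤ Y := by
    by_contra hcon
    push Not at hcon
    have : F₀ * Y ≤ F₀ * K₀ := Nat.mul_le_mul_left _ hcon.le
    omega
  have h1 := fiber s p φ p' hp' (fun v => |∑ n ∈ Icc 1 N, G n * f (n + v)|)
  rw [h1]
  exact dual (s := s) (p := p) N (N / Real.log N ^ U) (fun i n => f (n + φ i)) (fun G' hG' => by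
    have h3 := hK₀ Y hYK N hN1 hN2 s p g hMo (fun i => ((φ i : ℕ) : ℤ)) (fun i hi => by
      have := hφ i hi
      push_cast
      exact this) (fun i hi => by
      rw [abs_of_nonneg (Int.natCast_nonneg _)]
      exact_mod_cast hsz i hi) N hN1 1 (Or.inl rfl) G' hG'
    refine le_trans (le_of_eq ?_) h3
    apply sum_congr rfl
    intro c hc
    rw [mem_Icc] at hc
    congr 1
    apply sum_congr rfl
    intro i _
    have e1 : ((φ i : ℕ) : ℤ) + 1 * (c : ℤ) = ((c + φ i : ℕ) : ℤ) := by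
      push_cast
      ring
    rw [e1]
    unfold fx
    rw [if_pos (by exact_mod_cast (by omega : 1 ≤ c + φ i)), Int.toNat_natCast]) Kc hKc G hG

lemma nl_law {q : ℕ} (_ : 1 ≤ q) {C₀ : ℝ} (_ : 0 < C₀) {F F₀ W N : ℕ} {Ω : Finset ℕ} {p : ℕ → ℝ} (h : NL q C₀ F F₀ W N Ω p) :
    (∀ v, 0 ≤ p v) ∧ ∑ v ∈ Ω, p v = 1 ∧ ∀ v ∈ Ω, v ≤ F * F₀ * N := by
  obtain ⟨Y, s, p, g, φ, hN1, hN2, hMo, hφ, hsz, rfl, hp'⟩ := h
  refine ⟨fun v => ?_, ?_, ?_⟩
  · rw [hp']
    exact sum_nonneg fun i hi => hMo.nonneg i (mem_filter.1 hi).1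
  · have h1 := fiber s p φ _ hp' (fun _ => 1)
    simp only [mul_one] at h1
    rw [h1, hMo.sum]
  · intro v hv
    rw [mem_image] at hv
    obtain ⟨i, hi, rfl⟩ := hv
    have h1 := hsz i hi
    have h2 : F * Y ≤ F * (F₀ * N) := Nat.mul_le_mul_left _ hN2
    calc φ i ≤ F * (F₀ * N) := by omega
      _ = _ := by ring

/-- marginal laws -/
lemma marg {s t : ℕ} (Ω : Fin (s + t) → Finset ℕ) (p : Fin (s + t) → ℕ → ℝ) (hp1 : ∀ i, ∑ v ∈ Ω i, p i v = 1)
    (H : (Fin s → ℕ) → ℝ) :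
    ∑ m ∈ Fintype.piFinset Ω, H (fun i => m (Fin.castAdd t i)) * ∏ i, p i (m i) =
      ∑ m ∈ Fintype.piFinset (fun i : Fin s => Ω (Fin.castAdd t i)), H m * ∏ i, p (Fin.castAdd t i) (m i) := by
  classical
  have h1 : ∑ m ∈ Fintype.piFinset Ω, H (fun i => m (Fin.castAdd t i)) * ∏ i, p i (m i) =
      ∑ x ∈ Fintype.piFinset (fun i : Fin s => Ω (Fin.castAdd t i)) ×ˢ Fintype.piFinset (fun i : Fin t => Ω (Fin.natAdd s i)),
        H x.1 * ((∏ i, p (Fin.castAdd t i) (x.1 i)) * ∏ i, p (Fin.natAdd s i) (x.2 i)) := by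
    refine sum_bij' (fun m _ => (fun i => m (Fin.castAdd t i), fun i => m (Fin.natAdd s i))) (fun x _ => Fin.append x.1 x.2) ?_ ?_ ?_ ?_ ?_
    · intro m hm
      rw [Fintype.mem_piFinset] at hm
      rw [mem_product, Fintype.mem_piFinset, Fintype.mem_piFinset]
      exact ⟨fun i => hm _, fun i => hm _⟩
    · intro x hx
      rw [mem_product, Fintype.mem_piFinset, Fintype.mem_piFinset] at hx
      rw [Fintype.mem_piFinset]
      intro i
      refine Fin.addCases (fun j => ?_) (fun j => ?_) i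
      · rw [Fin.append_left]; exact hx.1 j
      · rw [Fin.append_right]; exact hx.2 j
    · intro m _
      funext i
      refine Fin.addCases (fun j => ?_) (fun j => ?_) i
      · rw [Fin.append_left]
      · rw [Fin.append_right]
    · intro x _
      ext i
      · simp only [Fin.append_left]
      · simp only [Fin.append_right]
    · intro m _
      rw [Fin.prod_univ_add]
  rw [h1, sum_product]
  apply sum_congr rfl
  intro m _
  have h2 : ∑ y ∈ Fintype.piFinset (fun i : Fin t => Ω (Fin.natAdd s i)), ∏ i, p (Fin.natAdd s i) (y i) = 1 := by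
    rw [← prod_univ_sum]
    exact prod_eq_one fun i _ => hp1 _
  simp only
  rw [← mul_sum, ← mul_sum, h2, mul_one]

/-- the correlation -/
noncomputable def corr {s t : ℕ} (θ : ℕ → ℝ) (N : ℕ) (m : Fin (s + t) → ℕ) : ℝ :=
  ∑ n ∈ Icc 1 N, θ n * (∏ i : Fin s, ArithmeticFunction.vonMangoldt (n + m (Fin.castAdd t i))) * ∏ j : Fin t, liF (n + m (Fin.natAdd s j))

lemma liF_abs (n : ℕ) : |liF n| = 1 := by
  unfold liF
  rw [abs_pow, abs_neg, abs_one, one_pow]

open Classical in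
theorem joint_laws (s t κ U : ℕ) (q : Fin (s + t) → ℕ) (hq : ∀ i, 1 ≤ q i) (C₀ : Fin (s + t) → ℝ) (hC₀ : ∀ i, 0 < C₀ i)
    (F T W : ℕ) (hT : 1 ≤ T) : ∃ N₁ : ℕ, ∀ N : ℕ, N₁ ≤ N → ∀ L : ℕ, (L : ℝ) ≤ Real.log N ^ κ → ∀ θ : Fin L → ℕ → ℝ,
    (∀ l, ∀ n ∈ Icc 1 N, |θ l n| ≤ Real.log N ^ κ) → ∀ (Ω : Fin (s + t) → Finset ℕ) (p : Fin (s + t) → ℕ → ℝ),
    (∀ i, NL (q i) (C₀ i) F T W N (Ω i) (p i)) →
    ∑ m ∈ Fintype.piFinset Ω, (if ¬ ((1 ≤ s → HLs 1 (U + 1) N (fun i : Fin s => m (Fin.castAdd t i))) ∧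
      (1 ≤ t → ∀ l, |corr (θ l) N m| ≤ N / Real.log N ^ U)) then ∏ i, p i (m i) else 0) ≤ 1 / Real.log N ^ U := by
  -- the two parts
  have hA : ∃ N₂ : ℕ, ∀ N : ℕ, N₂ ≤ N → 1 ≤ s → ∀ (Ω : Fin (s + t) → Finset ℕ) (p : Fin (s + t) → ℕ → ℝ),
      (∀ i, NL (q i) (C₀ i) F T W N (Ω i) (p i)) →
      ∑ m ∈ Fintype.piFinset Ω, (if ¬ HLs 1 (U + 1) N (fun i : Fin s => m (Fin.castAdd t i)) then ∏ i, p i (m i) else 0) ≤
        1 / Real.log N ^ (U + 1) := by
    by_cases hs : 1 ≤ s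
    swap
    · exact ⟨0, fun _ _ h => absurd h hs⟩
    obtain ⟨N₂, h2⟩ := Pool.Agent.N469.PT.ws_final s hs (fun i => NL (q (Fin.castAdd t i)) (C₀ (Fin.castAdd t i)) F T W) (fun _ => 1)
      (fun _ => le_rfl) 0 (U + 1) 1 one_pos (fun i => oneLaw_NL _ (hq _) _ (hC₀ _) F T W _ hT)
    refine ⟨N₂, fun N hN _ Ω p hL => ?_⟩
    have h3 := h2 N hN (fun i => Ω (Fin.castAdd t i)) (fun i => p (Fin.castAdd t i)) (fun i => hL _) (fun _ => 0) (fun _ => Nat.zero_le _)
    have h4 := marg Ω p (fun i => (nl_law (hq i) (hC₀ i) (hL i)).2.1) (fun m => if ¬ HLs 1 (U + 1) N m then 1 else 0)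
    have h5 : ∑ m ∈ Fintype.piFinset Ω, (if ¬ HLs 1 (U + 1) N (fun i : Fin s => m (Fin.castAdd t i)) then ∏ i, p i (m i) else 0) =
        ∑ m ∈ Fintype.piFinset Ω, (if ¬ HLs 1 (U + 1) N (fun i : Fin s => m (Fin.castAdd t i)) then (1 : ℝ) else 0) * ∏ i, p i (m i) := by
      apply sum_congr rfl
      intro m _
      split_ifs
      · rw [zero_mul]
      · rw [one_mul]
    rw [h5, h4]
    refine le_trans (le_of_eq ?_) h3
    apply sum_congr rfl
    intro m _
    have e1 : (fun i => 0 + 1 * m i) = m := by funext i; omega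
    rw [e1]
    split_ifs
    · rw [zero_mul]
    · rw [one_mul]
  have hB : ∃ N₃ : ℕ, ∀ N : ℕ, N₃ ≤ N → 1 ≤ t → ∀ L : ℕ, (L : ℝ) ≤ Real.log N ^ κ → ∀ θ : Fin L → ℕ → ℝ,
      (∀ l, ∀ n ∈ Icc 1 N, |θ l n| ≤ Real.log N ^ κ) → ∀ (Ω : Fin (s + t) → Finset ℕ) (p : Fin (s + t) → ℕ → ℝ),
      (∀ i, NL (q i) (C₀ i) F T W N (Ω i) (p i)) →
      ∑ m ∈ Fintype.piFinset Ω, (if ∃ l, N / Real.log N ^ U < |corr (θ l) N m| then ∏ i, p i (m i) else 0) ≤
        1 / Real.log N ^ (U + 1) := by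
    by_cases ht : 1 ≤ t
    swap
    · exact ⟨0, fun _ _ h => absurd h ht⟩
    obtain ⟨j₀, hj₀⟩ : ∃ j₀ : Fin t, j₀ = ⟨0, ht⟩ := ⟨_, rfl⟩
    obtain ⟨i₀, hi₀⟩ : ∃ i₀ : Fin (s + t), i₀ = Fin.natAdd s j₀ := ⟨_, rfl⟩
    obtain ⟨N₃, h3⟩ := nl_nice (q i₀) (hq i₀) (C₀ i₀) (hC₀ i₀) F T W (2 * U + 2 * κ + 2 * s + 1) hT liF nice_liF
    obtain ⟨A, hA'⟩ : ∃ A, A = F * T + 1 := ⟨_, rfl⟩
    obtain ⟨N4, hN4⟩ := exists_nat_ge (Real.exp 2 * A)
    refine ⟨N₃ + N4 + 1, fun N hN _ L hLκ θ hθ Ω p hlaw => ?_⟩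
    obtain ⟨Lg, hLg⟩ : ∃ Lg, Lg = Real.log N := ⟨_, rfl⟩
    have hN0 : (0 : ℝ) < N := by exact_mod_cast (by omega : 0 < N)
    have hA1 : (1 : ℝ) ≤ A := by rw [hA']; push_cast; have : (0 : ℝ) ≤ (F : ℝ) * T := by positivity
                                 linarith
    have hNA : Real.exp 2 * A ≤ N := hN4.trans (by exact_mod_cast (by omega : N4 ≤ N))
    have hL2 : 2 ≤ Lg := by
      rw [hLg, Real.le_log_iff_exp_le hN0]
      have h5 := Real.exp_pos 2
      nlinarith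
    have hLA : Real.log A ≤ Lg := by
      rw [hLg]
      apply Real.log_le_log (by linarith)
      have h5 : (1 : ℝ) ≤ Real.exp 2 := Real.one_le_exp (by norm_num)
      nlinarith
    have hL0 : 0 < Lg := by linarith
    rw [← hLg] at hLκ hθ ⊢
    have hp0 : ∀ i v, 0 ≤ p i v := fun i => (nl_law (hq i) (hC₀ i) (hlaw i)).1
    have hp1 : ∀ i, ∑ v ∈ Ω i, p i v = 1 := fun i => (nl_law (hq i) (hC₀ i) (hlaw i)).2.1
    have hpv : ∀ i, ∀ v ∈ Ω i, v ≤ F * T * N := fun i => (nl_law (hq i) (hC₀ i) (hlaw i)).2.2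
    have hpp : ∀ m : Fin (s + t) → ℕ, 0 ≤ ∏ i, p i (m i) := fun m => prod_nonneg fun i _ => hp0 i _
    -- the bound for the coefficients
    have hvm : ∀ n ∈ Icc 1 N, ∀ i, ∀ v ∈ Ω i, ArithmeticFunction.vonMangoldt (n + v) ≤ Lg * Lg := by
      intro n hn i v hv
      rw [mem_Icc] at hn
      refine ArithmeticFunction.vonMangoldt_le_log.trans ?_
      have h5 : n + v ≤ A * N := by
        have := hpv i v hv
        rw [hA', add_mul, one_mul]
        omega
      have h6 : ((n + v : ℕ) : ℝ) ≤ A * N := by exact_mod_cast h5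
      have h7 : (0 : ℝ) < ((n + v : ℕ) : ℝ) := by exact_mod_cast (by omega : 0 < n + v)
      refine (Real.log_le_log h7 h6).trans ?_
      rw [Real.log_mul (by linarith) hN0.ne', ← hLg]
      nlinarith
    have key : ∀ l, ∑ m ∈ Fintype.piFinset Ω, (∏ i, p i (m i)) * |corr (θ l) N m| ≤
        Lg ^ (κ + 2 * s) * (N / Lg ^ (2 * U + 2 * κ + 2 * s + 1)) := by
      intro l
      rw [← avg_w Ω p hp1 i₀ (fun m => |corr (θ l) N m|)]
      have h5 : ∀ m ∈ Fintype.piFinset Ω, ∑ v ∈ Ω i₀, p i₀ v * |corr (θ l) N (Function.update m i₀ v)| ≤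
          Lg ^ (κ + 2 * s) * (N / Lg ^ (2 * U + 2 * κ + 2 * s + 1)) := by
        intro m hm
        rw [Fintype.mem_piFinset] at hm
        obtain ⟨G, hG⟩ : ∃ G : ℕ → ℝ, ∀ n, G n = θ l n * (∏ i : Fin s, ArithmeticFunction.vonMangoldt (n + m (Fin.castAdd t i))) *
          ∏ j ∈ univ.erase j₀, liF (n + m (Fin.natAdd s j)) := ⟨_, fun _ => rfl⟩
        have h6 : ∀ v, corr (θ l) N (Function.update m i₀ v) = ∑ n ∈ Icc 1 N, G n * liF (n + v) := by
          intro v
          unfold corr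
          apply sum_congr rfl
          intro n _
          rw [hG, ← mul_prod_erase univ (fun j => liF (n + Function.update m i₀ v (Fin.natAdd s j))) (mem_univ j₀)]
          have e1 : ∀ i : Fin s, Function.update m i₀ v (Fin.castAdd t i) = m (Fin.castAdd t i) := by
            intro i
            rw [Function.update_of_ne]
            intro h
            rw [hi₀] at h
            have h7 := congrArg Fin.val h
            rw [Fin.val_castAdd, Fin.val_natAdd] at h7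
            have := i.2
            omega
          have e2 : ∏ j ∈ univ.erase j₀, liF (n + Function.update m i₀ v (Fin.natAdd s j)) =
              ∏ j ∈ univ.erase j₀, liF (n + m (Fin.natAdd s j)) := by
            apply prod_congr rfl
            intro j hj
            rw [Function.update_of_ne]
            intro h
            rw [hi₀] at h
            have h7 := congrArg Fin.val h
            rw [Fin.val_natAdd, Fin.val_natAdd] at h7
            exact (ne_of_mem_erase hj) (Fin.ext (by omega))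
          rw [e2, hi₀, Function.update_self]
          rw [hi₀] at e1
          simp only [e1]
          ring
        simp only [h6]
        have h7 := h3 N (by omega) (Ω i₀) (p i₀) (hlaw i₀) (Lg ^ (κ + 2 * s)) (by positivity) G (by
          intro n hn
          rw [hG, abs_mul, abs_mul, abs_prod, abs_prod]
          have g1 : ∏ j ∈ univ.erase j₀, |liF (n + m (Fin.natAdd s j))| = 1 := prod_eq_one fun j _ => liF_abs _
          rw [g1, mul_one, pow_add]
          apply mul_le_mul (hθ l n hn) _ (prod_nonneg fun _ _ => abs_nonneg _) (by positivity)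
          calc ∏ i : Fin s, |ArithmeticFunction.vonMangoldt (n + m (Fin.castAdd t i))| ≤ ∏ _i : Fin s, (Lg * Lg) := by
                apply prod_le_prod (fun _ _ => abs_nonneg _)
                intro i _
                rw [abs_of_nonneg ArithmeticFunction.vonMangoldt_nonneg]
                exact hvm n hn _ _ (hm _)
            _ = Lg ^ (2 * s) := by
                rw [prod_const, card_univ, Fintype.card_fin, pow_mul]
                congr 1
                ring)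
        rw [← hLg] at h7
        exact h7
      calc ∑ m ∈ Fintype.piFinset Ω, (∏ i, p i (m i)) * ∑ v ∈ Ω i₀, p i₀ v * |corr (θ l) N (Function.update m i₀ v)| ≤
          ∑ m ∈ Fintype.piFinset Ω, (∏ i, p i (m i)) * (Lg ^ (κ + 2 * s) * (N / Lg ^ (2 * U + 2 * κ + 2 * s + 1))) :=
            sum_le_sum fun m hm => mul_le_mul_of_nonneg_left (h5 m hm) (hpp m)
        _ = _ := by rw [← sum_mul, total_w Ω p hp1, one_mul]
    have hmark : ∀ m ∈ Fintype.piFinset Ω, (if ∃ l, N / Lg ^ U < |corr (θ l) N m| then ∏ i, p i (m i) else 0) ≤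
        ∑ l, (Lg ^ U / N) * ((∏ i, p i (m i)) * |corr (θ l) N m|) := by
      intro m _
      have hnn : ∀ l ∈ (univ : Finset (Fin L)), 0 ≤ (Lg ^ U / N) * ((∏ i, p i (m i)) * |corr (θ l) N m|) := fun l _ =>
        mul_nonneg (by positivity) (mul_nonneg (hpp m) (abs_nonneg _))
      split_ifs with h
      · obtain ⟨l, hl⟩ := h
        refine le_trans ?_ (single_le_sum hnn (mem_univ l))
        have h5 : 1 ≤ (Lg ^ U / N) * |corr (θ l) N m| := by
          have h6 : (Lg ^ U / N) * (N / Lg ^ U) ≤ (Lg ^ U / N) * |corr (θ l) N m| :=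
            mul_le_mul_of_nonneg_left hl.le (by positivity)
          have h7 : (Lg ^ U / N) * (N / Lg ^ U) = 1 := by
            field_simp
          linarith
        calc ∏ i, p i (m i) = (∏ i, p i (m i)) * 1 := (mul_one _).symm
          _ ≤ (∏ i, p i (m i)) * ((Lg ^ U / N) * |corr (θ l) N m|) := mul_le_mul_of_nonneg_left h5 (hpp m)
          _ = _ := by ring
      · exact sum_nonneg hnn
    refine (sum_le_sum hmark).trans ?_
    rw [sum_comm]
    have h8 : ∀ l ∈ (univ : Finset (Fin L)), ∑ m ∈ Fintype.piFinset Ω, (Lg ^ U / N) * ((∏ i, p i (m i)) * |corr (θ l) N m|) ≤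
        (Lg ^ U / N) * (Lg ^ (κ + 2 * s) * (N / Lg ^ (2 * U + 2 * κ + 2 * s + 1))) := by
      intro l _
      rw [← mul_sum]
      exact mul_le_mul_of_nonneg_left (key l) (by positivity)
    refine (sum_le_sum h8).trans ?_
    rw [sum_const, card_univ, Fintype.card_fin, nsmul_eq_mul]
    calc (L : ℝ) * ((Lg ^ U / N) * (Lg ^ (κ + 2 * s) * (N / Lg ^ (2 * U + 2 * κ + 2 * s + 1)))) ≤
        Lg ^ κ * ((Lg ^ U / N) * (Lg ^ (κ + 2 * s) * (N / Lg ^ (2 * U + 2 * κ + 2 * s + 1)))) :=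
          mul_le_mul_of_nonneg_right hLκ (by positivity)
      _ = (Lg ^ κ * Lg ^ U * Lg ^ (κ + 2 * s)) / Lg ^ (2 * U + 2 * κ + 2 * s + 1) := by
          field_simp
      _ = Lg ^ (κ + U + (κ + 2 * s)) / Lg ^ (2 * U + 2 * κ + 2 * s + 1) := by
          rw [← pow_add, ← pow_add]
      _ = 1 / Lg ^ (U + 1) := by
          rw [div_eq_div_iff (by positivity) (by positivity), one_mul, ← pow_add]
          congr 1
          ring
  obtain ⟨N₂, h2⟩ := hA
  obtain ⟨N₃, h3⟩ := hB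
  obtain ⟨N4, hN4⟩ := exists_nat_ge (Real.exp 2)
  refine ⟨N₂ + N₃ + N4 + 1, fun N hN L hLκ θ hθ Ω p hlaw => ?_⟩
  have hN0 : (0 : ℝ) < N := by exact_mod_cast (by omega : 0 < N)
  have hL2 : 2 ≤ Real.log N := by
    rw [Real.le_log_iff_exp_le hN0]
    exact hN4.trans (by exact_mod_cast (by omega : N4 ≤ N))
  have hp0 : ∀ i v, 0 ≤ p i v := fun i => (nl_law (hq i) (hC₀ i) (hlaw i)).1
  have hpp : ∀ m : Fin (s + t) → ℕ, 0 ≤ ∏ i, p i (m i) := fun m => prod_nonneg fun i _ => hp0 i _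
  have hsum : ∀ m ∈ Fintype.piFinset Ω, (if ¬ ((1 ≤ s → HLs 1 (U + 1) N (fun i : Fin s => m (Fin.castAdd t i))) ∧
      (1 ≤ t → ∀ l, |corr (θ l) N m| ≤ N / Real.log N ^ U)) then ∏ i, p i (m i) else 0) ≤
      (if 1 ≤ s then (if ¬ HLs 1 (U + 1) N (fun i : Fin s => m (Fin.castAdd t i)) then ∏ i, p i (m i) else 0) else 0) +
      (if 1 ≤ t then (if ∃ l, N / Real.log N ^ U < |corr (θ l) N m| then ∏ i, p i (m i) else 0) else 0) := by
    intro m _
    have n1 : 0 ≤ (if 1 ≤ s then (if ¬ HLs 1 (U + 1) N (fun i : Fin s => m (Fin.castAdd t i)) then ∏ i, p i (m i) else 0) else 0) := by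
      split_ifs <;> first | exact le_rfl | exact hpp m
    have n2 : 0 ≤ (if 1 ≤ t then (if ∃ l, N / Real.log N ^ U < |corr (θ l) N m| then ∏ i, p i (m i) else 0) else 0) := by
      split_ifs <;> first | exact le_rfl | exact hpp m
    by_cases h : (1 ≤ s → HLs 1 (U + 1) N (fun i : Fin s => m (Fin.castAdd t i)))
    · by_cases h' : (1 ≤ t → ∀ l, |corr (θ l) N m| ≤ N / Real.log N ^ U)
      · rw [if_neg (not_not.2 ⟨h, h'⟩)]
        linarith
      · rw [if_pos (fun hc => h' hc.2)]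
        push Not at h'
        obtain ⟨ht, l, hl⟩ := h'
        rw [if_pos ht, if_pos (show ∃ l, N / Real.log N ^ U < |corr (θ l) N m| from ⟨l, hl⟩)]
        linarith
    · rw [if_pos (fun hc => h hc.1)]
      push Not at h
      obtain ⟨hs, hl⟩ := h
      rw [if_pos hs, if_pos hl]
      linarith
  refine (sum_le_sum hsum).trans ?_
  rw [sum_add_distrib]
  have g1 : ∑ m ∈ Fintype.piFinset Ω, (if 1 ≤ s then (if ¬ HLs 1 (U + 1) N (fun i : Fin s => m (Fin.castAdd t i)) then ∏ i, p i (m i) else 0) else 0) ≤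
      1 / Real.log N ^ (U + 1) := by
    by_cases hs : 1 ≤ s
    · simp only [if_pos hs]
      exact h2 N (by omega) hs Ω p hlaw
    · simp only [if_neg hs, sum_const_zero]
      positivity
  have g2 : ∑ m ∈ Fintype.piFinset Ω, (if 1 ≤ t then (if ∃ l, N / Real.log N ^ U < |corr (θ l) N m| then ∏ i, p i (m i) else 0) else 0) ≤
      1 / Real.log N ^ (U + 1) := by
    by_cases ht : 1 ≤ t
    · simp only [if_pos ht]
      exact h3 N (by omega) ht L hLκ θ hθ Ω p hlaw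
    · simp only [if_neg ht, sum_const_zero]
      positivity
  have g3 : 2 * (1 / Real.log N ^ (U + 1)) ≤ 1 / Real.log N ^ U := by
    rw [pow_succ, mul_one_div, div_le_div_iff₀ (by positivity) (by positivity)]
    have : 0 < Real.log N ^ U := by positivity
    nlinarith
  linarith

end Pool.Agent.HP25.OS
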