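import Pool.Agent.HP25.OS.A
import Pool.Agent.TH872.Sq.W7

set_option autoImplicit false

/-! One shift close to random real numbers, arbitrary coefficients. -/

namespace Pool.Agent.HP25.OS
open Finset
open Pool.Agent.H807R2.Dav
open Pool.Agent.H373R2.T7
open Pool.Agent.W93.DG
open Pool.Agent.TH872.Sq
open Pool.Agent.HP25.PD

variable {ι : Type}

/-- The random real number `g` (with the probabilities `p`) has a bounded moment of order `2 q` at the scale `Y`. -/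
structure Mo (q : ℕ) (C : ℝ) (Y : ℕ) (s : Finset ι) (p g : ι → ℝ) : Prop where
  nonneg : ∀ i ∈ s, 0 ≤ p i
  sum : ∑ i ∈ s, p i = 1
  mom : ∑ t ∈ range Y, ‖∑ i ∈ s, ((p i : ℝ) : ℂ) * ee ((t : ℝ) / ((12 * q * Y : ℕ) : ℝ) * g i)‖ ^ (2 * q) ≤ C

/-- the moments of close integers -/
lemma mo_near {q : ℕ} (hq : 1 ≤ q) {C : ℝ} (hC : 0 < C) {Y : ℕ} {s : Finset ι} {p g : ι → ℝ} (h : Mo q C Y s p g) (φ : ι → ℤ) (k W : ℕ)
    (hk : 1 ≤ k) (hkY : k ^ W ≤ Y) (hφ : ∀ i ∈ s, |(φ i : ℝ) - g i| ≤ (k : ℝ) ^ W) (R : ℕ) (hR : ∀ i ∈ s, |φ i| ≤ R) (M' : ℕ)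
    (hM' : 2 * q * R < M') :
    (∑ t ∈ range M', ‖∑ i ∈ s, ((p i : ℝ) : ℂ) * ee ((t : ℝ) * ((φ i : ℝ) / M'))‖ ^ (2 * q)) * Y ≤ 16 * C * M' * (k : ℝ) ^ W := by
  have hk0 : 0 < k ^ W := by positivity
  obtain ⟨T, hT⟩ : ∃ T, T = Y / k ^ W := ⟨_, rfl⟩
  have hT1 : 1 ≤ T := by
    rw [hT]
    exact (Nat.one_le_div_iff hk0).2 hkY
  have hTY : T * k ^ W ≤ Y := by
    rw [hT]
    exact Nat.div_mul_le_self _ _
  have hY2 : Y ≤ 2 * (T * k ^ W) := by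
    have h1 : Y < (T + 1) * k ^ W := by
      rw [hT]
      have := Nat.lt_mul_div_succ Y hk0
      rwa [mul_comm] at this
    have h2 : (T + 1) * k ^ W ≤ (T + T) * k ^ W := Nat.mul_le_mul_right _ (by omega)
    calc Y ≤ (T + T) * k ^ W := (h1.trans_le h2).le
      _ = _ := by ring
  have hYpos : 1 ≤ Y := le_trans hk0 hkY
  have hTle : T ≤ Y := le_trans (Nat.le_mul_of_pos_right _ hk0) hTY
  have key := moment_near q s p h.nonneg g φ ((k : ℝ) ^ W) hφ R hR T (12 * q * Y) M' hT1 (by nlinarith) (by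
      have h3 : ((T * k ^ W : ℕ) : ℝ) ≤ Y := by exact_mod_cast hTY
      push_cast at h3 ⊢
      have h4 : (0 : ℝ) ≤ 12 * q := by positivity
      nlinarith) hM' C (by
      refine le_trans ?_ h.mom
      apply sum_le_sum_of_subset_of_nonneg
      · exact range_subset_range.2 hTle
      · intro t _ _
        positivity)
  obtain ⟨Z, hZ⟩ : ∃ Z, Z = ∑ t ∈ range M', ‖∑ i ∈ s, ((p i : ℝ) : ℂ) * ee ((t : ℝ) * ((φ i : ℝ) / M'))‖ ^ (2 * q) := ⟨_, rfl⟩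
  have hZ0 : 0 ≤ Z := by rw [hZ]; exact sum_nonneg fun _ _ => by positivity
  rw [← hZ] at key ⊢
  have h5 : (Y : ℝ) ≤ 2 * (T * (k : ℝ) ^ W) := by exact_mod_cast hY2
  calc Z * Y ≤ Z * (2 * (T * (k : ℝ) ^ W)) := mul_le_mul_of_nonneg_left h5 hZ0
    _ = 2 * (Z * T) * (k : ℝ) ^ W := by ring
    _ ≤ 2 * (8 * C * M') * (k : ℝ) ^ W := by
        apply mul_le_mul_of_nonneg_right _ (by positivity)
        linarith
    _ = _ := by ring

/-- **One shift, arbitrary coefficients.** -/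
theorem one_gen (q : ℕ) (hq : 1 ≤ q) (C₀ : ℝ) (hC₀ : 0 < C₀) (F F₀ W T U : ℕ) : ∃ U0 K₀ : ℕ, ∀ k : ℕ, K₀ ≤ k → ∀ Y : ℕ,
    k ^ W ≤ Y → ∀ (s : Finset ι) (p g : ι → ℝ), Mo q C₀ Y s p g → ∀ φ : ι → ℤ, (∀ i ∈ s, |(φ i : ℝ) - g i| ≤ (k : ℝ) ^ W) →
    (∀ i ∈ s, |φ i| ≤ ((F * Y : ℕ) : ℤ)) → ∀ σ : ℤ, (σ = 1 ∨ σ = -1) → ∀ X : ℕ, X ≤ F₀ * Y →
    ∀ f : ℕ → ℝ, ∑ n ∈ Icc 1 ((F + F₀ + 1) * Y), f n ^ 2 ≤ (((F + F₀ + 1) * Y : ℕ) : ℝ) * (k : ℝ) ^ T →
    (∀ α : ℝ, ‖∑ n ∈ Icc 1 ((F + F₀ + 1) * Y), ((f n : ℝ) : ℂ) * ee ((n : ℝ) * α)‖ ≤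
      (((F + F₀ + 1) * Y : ℕ) : ℝ) / (k : ℝ) ^ U0) →
    ∀ G : ι → ℝ, (∀ i ∈ s, |G i| ≤ 1) →
    ∑ c ∈ Icc 1 X, |∑ i ∈ s, p i * (G i * cut f ((F + F₀ + 1) * Y) (φ i + σ * (c : ℤ)))| ≤ (Y : ℝ) / (k : ℝ) ^ U := by
  classical
  obtain ⟨F₁, hF₁⟩ : ∃ F₁ : ℕ, F₁ = F + F₀ + 1 := ⟨_, rfl⟩
  obtain ⟨F', hF'⟩ : ∃ F' : ℕ, F' = 2 * q * (F + F₁) + 1 := ⟨_, rfl⟩
  obtain ⟨V, hV⟩ : ∃ V : ℕ, V = U + T + 1 := ⟨_, rfl⟩
  obtain ⟨C, hC⟩ : ∃ C : ℝ, C = 16 * C₀ * F' := ⟨_, rfl⟩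
  have hC0 : 0 ≤ C := by rw [hC]; positivity
  obtain ⟨K2, hK2⟩ := exists_nat_ge ((F₀ : ℝ) * F₁ * (1 + C))
  rw [← hF₁]
  refine ⟨q * V + U + W + 1, K2 + 1, fun k hk Y hkY s p g hMo φ hφ hsz σ hσ X hX f hf2 hfs G hG => ?_⟩
  have hk1' : 1 ≤ k := by omega
  have hY1 : 1 ≤ Y := le_trans (Nat.one_le_pow _ _ hk1') hkY
  obtain ⟨N, hN⟩ : ∃ N, N = F₁ * Y := ⟨_, rfl⟩
  rw [← hN] at hf2 hfs ⊢
  obtain ⟨R, hR⟩ : ∃ R, R = (F + F₁) * Y := ⟨_, rfl⟩
  obtain ⟨M, hM⟩ : ∃ M, M = 2 * q * R + 1 := ⟨_, rfl⟩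
  have hNR : N ≤ R := by rw [hN, hR]; exact Nat.mul_le_mul_right _ (by omega)
  have h2R : 2 * R < M := by
    rw [hM]
    have : 2 * R ≤ 2 * q * R := Nat.mul_le_mul_right _ (by omega)
    omega
  have hNM : N ≤ M := by omega
  have hMF : M ≤ F' * Y := by
    rw [hM, hR, hF']
    nlinarith
  have hkr : (0 : ℝ) < k := by exact_mod_cast (by omega : 0 < k)
  have hk1 : (1 : ℝ) ≤ k := by exact_mod_cast (by omega : 1 ≤ k)
  have hFR : ∀ i ∈ s, |φ i| + N ≤ R := by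
    intro i hi
    have h1 := hsz i hi
    rw [hR, hN]
    push_cast at h1 ⊢
    linarith
  have hS : ∀ t ∈ range M, ‖FF f N M t‖ ≤ (N : ℝ) / (k : ℝ) ^ (q * V + U + W + 1) := fun t _ => hfs _
  have hY0 : (0 : ℝ) < Y := by exact_mod_cast hY1
  have hN0 : (0 : ℝ) < N := by
    have : 0 < N := by rw [hN]; exact Nat.mul_pos (by omega) (by omega)
    exact_mod_cast this
  have hM0 : (0 : ℝ) < M := by exact_mod_cast (by omega : 0 < M)
  have hNMr : (N : ℝ) ≤ M := by exact_mod_cast hNM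
  have hNr : (N : ℝ) = F₁ * Y := by rw [hN]; push_cast; ring
  have hmom' : ∑ t ∈ range M, ‖∑ i ∈ s, ((p i : ℝ) : ℂ) * ee ((t : ℝ) * ((φ i : ℝ) / M))‖ ^ (2 * q) ≤ C * (k : ℝ) ^ W := by
    have h1 := mo_near hq hC₀ hMo φ k W hk1' hkY hφ (F * Y) hsz M (by
      rw [hM, hR]
      have : 2 * q * (F * Y) ≤ 2 * q * ((F + F₁) * Y) := Nat.mul_le_mul_left _ (Nat.mul_le_mul_right _ (by omega))
      omega)
    have h2 : (M : ℝ) ≤ F' * Y := by exact_mod_cast hMF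
    have h3 : 16 * C₀ * M * (k : ℝ) ^ W ≤ (C * (k : ℝ) ^ W) * Y := by
      rw [hC]
      calc 16 * C₀ * M * (k : ℝ) ^ W ≤ 16 * C₀ * (F' * Y) * (k : ℝ) ^ W := by
            apply mul_le_mul_of_nonneg_right _ (by positivity)
            exact mul_le_mul_of_nonneg_left h2 (by positivity)
        _ = _ := by ring
    exact le_of_mul_le_mul_right (h1.trans h3) hY0
  have key := second_le s (fun i => p i) (fun i => p i * G i) (by
      intro i hi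
      rw [abs_mul, abs_of_nonneg (hMo.nonneg i hi)]
      calc p i * |G i| ≤ p i * 1 := mul_le_mul_of_nonneg_left (hG i hi) (hMo.nonneg i hi)
        _ = _ := mul_one _)
    φ f N M R (by omega) hNM hFR h2R q (C * (k : ℝ) ^ W) hmom' _ hS hMo.sum.le (1 / (k : ℝ) ^ V) (by positivity)
  -- the second moment
  have h2 : ∑ c ∈ Icc (-(R : ℤ)) R, (∑ i ∈ s, p i * G i * cut f N (φ i + c)) ^ 2 ≤
      N * (1 + C) / (k : ℝ) ^ (2 * U + 2) := by
    have e1 : M * ∑ c ∈ Icc (-(R : ℤ)) R, (∑ i ∈ s, p i * G i * cut f N (φ i + c)) ^ 2 ≤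
        M * (N * (1 + C) / (k : ℝ) ^ (2 * U + 2)) := by
      refine key.trans ?_
      have a1 : (1 / (k : ℝ) ^ V) ^ 2 * (M * ∑ n ∈ Icc 1 N, f n ^ 2) ≤ M * (N * 1 / (k : ℝ) ^ (2 * U + 2)) := by
        calc (1 / (k : ℝ) ^ V) ^ 2 * (M * ∑ n ∈ Icc 1 N, f n ^ 2) ≤ (1 / (k : ℝ) ^ V) ^ 2 * (M * (N * (k : ℝ) ^ T)) := by
              apply mul_le_mul_of_nonneg_left _ (by positivity)
              exact mul_le_mul_of_nonneg_left hf2 hM0.le
          _ = M * (N * ((k : ℝ) ^ T / (k : ℝ) ^ (2 * V))) := by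
              rw [div_pow, one_pow, ← pow_mul, mul_comm V 2]
              field_simp
          _ ≤ M * (N * (1 / (k : ℝ) ^ (2 * U + 2))) := by
              apply mul_le_mul_of_nonneg_left _ hM0.le
              apply mul_le_mul_of_nonneg_left _ hN0.le
              rw [div_le_div_iff₀ (by positivity) (by positivity), one_mul, ← pow_add]
              exact pow_le_pow_right₀ hk1 (by omega)
          _ = _ := by ring
      have a2 : C * (k : ℝ) ^ W / (1 / (k : ℝ) ^ V) ^ (2 * q) * ((N : ℝ) / (k : ℝ) ^ (q * V + U + W + 1)) ^ 2 ≤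
          M * (N * C / (k : ℝ) ^ (2 * U + 2)) := by
        calc C * (k : ℝ) ^ W / (1 / (k : ℝ) ^ V) ^ (2 * q) * ((N : ℝ) / (k : ℝ) ^ (q * V + U + W + 1)) ^ 2 =
            C * (N * N) * ((k : ℝ) ^ (W + V * (2 * q)) / (k : ℝ) ^ ((q * V + U + W + 1) * 2)) := by
              rw [div_pow, div_pow, one_pow, ← pow_mul, ← pow_mul, pow_add]
              field_simp
          _ ≤ C * (N * N) * (1 / (k : ℝ) ^ (2 * U + 2)) := by
              apply mul_le_mul_of_nonneg_left _ (by positivity)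
              rw [div_le_div_iff₀ (by positivity) (by positivity), one_mul, ← pow_add]
              exact pow_le_pow_right₀ hk1 (by ring_nf; omega)
          _ ≤ C * (M * N) * (1 / (k : ℝ) ^ (2 * U + 2)) := by
              apply mul_le_mul_of_nonneg_right _ (by positivity)
              apply mul_le_mul_of_nonneg_left _ hC0
              exact mul_le_mul_of_nonneg_right hNMr hN0.le
          _ = _ := by ring
      calc _ ≤ M * (N * 1 / (k : ℝ) ^ (2 * U + 2)) + M * (N * C / (k : ℝ) ^ (2 * U + 2)) := add_le_add a1 a2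
        _ = _ := by ring
    exact le_of_mul_le_mul_left e1 hM0
  -- Cauchy
  obtain ⟨τ, hτ⟩ : ∃ τ : ℕ → ℝ, ∀ c, τ c = |∑ i ∈ s, p i * (G i * cut f N (φ i + σ * (c : ℤ)))| := ⟨_, fun _ => rfl⟩
  simp only [← hτ]
  have h3 : (∑ c ∈ Icc 1 X, τ c) ^ 2 ≤ X * ∑ c ∈ Icc 1 X, τ c ^ 2 := by
    have h4 := sq_sum_le_card_mul_sum_sq (s := Icc 1 X) (f := τ)
    rwa [Nat.card_Icc, Nat.add_sub_cancel] at h4
  have h4 : ∑ c ∈ Icc 1 X, τ c ^ 2 ≤ ∑ c ∈ Icc (-(R : ℤ)) R, (∑ i ∈ s, p i * G i * cut f N (φ i + c)) ^ 2 := by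
    obtain ⟨g', hg'⟩ : ∃ g' : ℤ → ℝ, ∀ c, g' c = (∑ i ∈ s, p i * G i * cut f N (φ i + c)) ^ 2 := ⟨_, fun _ => rfl⟩
    have e1 : ∀ c ∈ Icc 1 X, τ c ^ 2 = g' (σ * (c : ℤ)) := by
      intro c _
      rw [hτ, hg', sq_abs]
      congr 1
      apply sum_congr rfl
      intro n _
      ring
    rw [sum_congr rfl e1]
    simp only [← hg']
    rw [← sum_image (f := g') (g := fun c : ℕ => σ * (c : ℤ)) (by
      intro c _ c' _ h
      rcases hσ with h0 | h0 <;> rw [h0] at h <;> simpa using h)]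
    apply sum_le_sum_of_subset_of_nonneg
    · intro c hc
      rw [mem_image] at hc
      obtain ⟨c', hc', rfl⟩ := hc
      rw [mem_Icc] at hc' ⊢
      have : X ≤ R := by
        rw [hR]
        exact hX.trans (Nat.mul_le_mul_right _ (by omega))
      rcases hσ with h0 | h0 <;> rw [h0] <;> constructor <;> omega
    · intro c _ _
      rw [hg']
      exact sq_nonneg _
  have h5 : (∑ c ∈ Icc 1 X, τ c) ^ 2 ≤ ((Y : ℝ) / (k : ℝ) ^ U) ^ 2 := by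
    refine h3.trans ?_
    calc (X : ℝ) * ∑ c ∈ Icc 1 X, τ c ^ 2 ≤ (F₀ * Y) * (N * (1 + C) / (k : ℝ) ^ (2 * U + 2)) := by
          apply mul_le_mul _ (h4.trans h2) (sum_nonneg fun _ _ => sq_nonneg _) (by positivity)
          exact_mod_cast hX
      _ = Y ^ 2 * ((F₀ * F₁ * (1 + C)) / k ^ 2) / (k : ℝ) ^ (2 * U) := by
          rw [hNr, pow_add (k : ℝ) (2 * U) 2]
          field_simp
      _ ≤ Y ^ 2 * 1 / (k : ℝ) ^ (2 * U) := by
          apply div_le_div_of_nonneg_right _ (by positivity)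
          apply mul_le_mul_of_nonneg_left _ (by positivity)
          rw [div_le_one (by positivity)]
          refine hK2.trans ?_
          have : (K2 : ℝ) ≤ k := by exact_mod_cast (by omega : K2 ≤ k)
          nlinarith
      _ = _ := by rw [div_pow, ← pow_mul, mul_comm 2 U, mul_one]
  exact (pow_le_pow_iff_left₀ (sum_nonneg fun c _ => by rw [hτ]; exact abs_nonneg _) (by positivity) two_ne_zero).1 h5

/-- the dual form -/
theorem dual {s : Finset ι} {p : ι → ℝ} (X : ℕ) (δ : ℝ) (h : ι → ℕ → ℝ) (H : ∀ G : ι → ℝ, (∀ i ∈ s, |G i| ≤ 1) →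
    ∑ c ∈ Icc 1 X, |∑ i ∈ s, p i * (G i * h i c)| ≤ δ) (Kc : ℝ) (hKc : 0 ≤ Kc) (G : ℕ → ℝ) (hG : ∀ n ∈ Icc 1 X, |G n| ≤ Kc) :
    ∑ i ∈ s, p i * |∑ n ∈ Icc 1 X, G n * h i n| ≤ Kc * δ := by
  obtain ⟨ε, hε⟩ : ∃ ε : ι → ℝ, ∀ i, ε i = if 0 ≤ ∑ n ∈ Icc 1 X, G n * h i n then 1 else -1 := ⟨_, fun _ => rfl⟩
  have h1 : ∀ i, |∑ n ∈ Icc 1 X, G n * h i n| = ε i * ∑ n ∈ Icc 1 X, G n * h i n := by
    intro i
    rw [hε]
    split_ifs with h
    · rw [abs_of_nonneg h, one_mul]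
    · rw [abs_of_neg (not_le.1 h)]; ring
  have h2 := H ε (by
    intro i _
    rw [hε]
    split_ifs <;> simp)
  calc ∑ i ∈ s, p i * |∑ n ∈ Icc 1 X, G n * h i n| = ∑ n ∈ Icc 1 X, G n * ∑ i ∈ s, p i * (ε i * h i n) := by
        simp only [h1, mul_sum]
        rw [sum_comm]
        apply sum_congr rfl
        intro n _
        apply sum_congr rfl
        intro i _
        ring
    _ ≤ ∑ n ∈ Icc 1 X, Kc * |∑ i ∈ s, p i * (ε i * h i n)| := by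
        apply sum_le_sum
        intro n hn
        refine (le_abs_self _).trans ?_
        rw [abs_mul]
        exact mul_le_mul_of_nonneg_right (hG n hn) (abs_nonneg _)
    _ ≤ Kc * δ := by
        rw [← mul_sum]
        exact mul_le_mul_of_nonneg_left h2 hKc

/-- no value has a large probability -/
lemma atom {q : ℕ} (hq : 1 ≤ q) {C : ℝ} (hC : 0 < C) {Y : ℕ} {s : Finset ι} {p g : ι → ℝ} (h : Mo q C Y s p g) (φ : ι → ℤ) (k W : ℕ)
    (hk : 1 ≤ k) (hkY : k ^ W ≤ Y) (hφ : ∀ i ∈ s, |(φ i : ℝ) - g i| ≤ (k : ℝ) ^ W) (v : ℤ) :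
    (∑ i ∈ s.filter (fun i => φ i = v), p i) ^ (2 * q) * Y ≤ 16 * C * (k : ℝ) ^ W := by
  classical
  obtain ⟨R, hR⟩ : ∃ R : ℕ, ∀ i ∈ s, |φ i| ≤ R := by
    refine ⟨s.sup (fun i => (φ i).natAbs), fun i hi => ?_⟩
    rw [Int.abs_eq_natAbs]
    exact_mod_cast le_sup (f := fun i => (φ i).natAbs) hi
  obtain ⟨M, hM⟩ : ∃ M, M = 2 * q * R + 1 := ⟨_, rfl⟩
  have hM0 : (0 : ℝ) < M := by exact_mod_cast (by omega : 0 < M)
  have h1 := mo_near hq hC h φ k W hk hkY hφ R hR M (by omega)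
  -- the mass of the value `v` is the mass of a smaller law
  have h2 := majorantW_pow q s (fun i => if φ i = v then ((p i : ℝ) : ℂ) else 0) p φ M (by omega) (by
    intro i hi
    split_ifs
    · rw [Complex.norm_real, Real.norm_of_nonneg (h.nonneg i hi)]
    · rw [norm_zero]; exact h.nonneg i hi)
  have h3 : ∀ t : ℕ, ‖∑ i ∈ s, (if φ i = v then ((p i : ℝ) : ℂ) else 0) * ee ((t : ℝ) * ((φ i : ℝ) / M))‖ =
      ∑ i ∈ s.filter (fun i => φ i = v), p i := by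
    intro t
    have e1 : ∑ i ∈ s, (if φ i = v then ((p i : ℝ) : ℂ) else 0) * ee ((t : ℝ) * ((φ i : ℝ) / M)) =
        ((∑ i ∈ s.filter (fun i => φ i = v), p i : ℝ) : ℂ) * ee ((t : ℝ) * ((v : ℝ) / M)) := by
      push_cast
      rw [sum_mul, sum_filter]
      apply sum_congr rfl
      intro i _
      split_ifs with h
      · rw [h]
      · rw [zero_mul]
    rw [e1, norm_mul, norm_ee, mul_one, Complex.norm_real, Real.norm_of_nonneg]
    exact sum_nonneg fun i hi => h.nonneg i (mem_filter.1 hi).1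
  simp only [h3] at h2
  rw [sum_const, card_range, nsmul_eq_mul] at h2
  have hY0 : (0 : ℝ) ≤ Y := Nat.cast_nonneg _
  have h4 := (mul_le_mul_of_nonneg_right h2 hY0).trans h1
  have h5 : M * ((∑ i ∈ s.filter (fun i => φ i = v), p i) ^ (2 * q) * Y) ≤ M * (16 * C * (k : ℝ) ^ W) := by
    calc _ = (M : ℝ) * (∑ i ∈ s.filter (fun i => φ i = v), p i) ^ (2 * q) * Y := by ring
      _ ≤ _ := h4
      _ = _ := by ring
  exact le_of_mul_le_mul_left h5 hM0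

end Pool.Agent.HP25.OS
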