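import Pool.Agent.HP25.OS.D

set_option autoImplicit false

/-! Values of real polynomials at integers with restricted digits: moments; several independent laws. -/

namespace Pool.Agent.HP25.OS
open Finset
open Pool.Agent.H807R2.Dav
open Pool.Agent.H373R2.T7
open Pool.Agent.W93.DG
open Pool.Agent.TH872.Sq
open Pool.Agent.HP25.PD
open Pool.Agent.N469.PT (OneLaw)

/-- the values of a polynomial -/
lemma pl_pol (e : ℕ) (f : Polynomial ℝ) (hf : f.natDegree = e + 2) : Pl e f.leadingCoeff (fun x => f.eval x) := by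
  have h := pl_sum e (fun j => f.coeff j) (fun x => f.eval x) (fun x => by
    show f.eval x = _
    rw [Polynomial.eval_eq_sum_range, hf])
  have h2 : f.coeff (e + 2) = f.leadingCoeff := by
    rw [Polynomial.leadingCoeff, hf]
  rw [← h2]
  exact h

/-- the moments for real polynomials at integers with restricted digits -/
theorem mo_poly (b : ℕ) (hb : 2 ≤ b) (e κ₁ κ₂ : ℕ) : ∃ (q : ℕ) (C₀ : ℝ), 1 ≤ q ∧ 0 < C₀ ∧ ∀ k : ℕ, ∀ D : ℕ → Finset ℕ,
    (∀ i < k, D i ⊆ range b ∧ 2 ≤ (D i).card) → ∀ (κ : ℝ) (f : ℝ → ℝ), |κ| ≤ κ₁ → 1 ≤ κ₂ * |κ| → Pl e κ f →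
    Mo q C₀ (b ^ ((e + 2) * k)) (SD b D k) (fun _ => 1 / ((SD b D k).card : ℝ)) (fun n => f n) := by
  classical
  obtain ⟨q, hq, hmom⟩ := PD.moment b hb (1 / 2) (by norm_num) e
  obtain ⟨Cf, hCf, hm⟩ := hmom (12 * q) κ₁ κ₂ (by omega)
  refine ⟨q, Cf, hq, hCf, fun k D hD κ f hκ1 hκ2 hf => ?_⟩
  obtain ⟨N, hN⟩ : ∃ N, N = b ^ ((e + 2) * k) := ⟨_, rfl⟩
  have hN1 : 1 ≤ N := by rw [hN]; exact Nat.one_le_pow _ _ (by omega)
  obtain ⟨M, hM⟩ : ∃ M, M = 12 * q * N := ⟨_, rfl⟩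
  have hMN : N ≤ M := by rw [hM]; exact Nat.le_mul_of_pos_left _ (by omega)
  have hcard := SD_card_pos b hb D k hD
  have h2 := hm k M (by rw [← hN]; exact hMN) (by rw [hM, hN]) (wD D k) (dig_wD b hb D k hD) 0 κ f hκ1 hκ2 hf
  obtain ⟨Z, hZ⟩ : ∃ Z : ℝ, Z = ((SD b D k).card : ℝ) := ⟨_, rfl⟩
  rw [← hN]
  refine ⟨fun _ _ => by positivity, ?_, ?_⟩
  · rw [sum_const, nsmul_eq_mul, mul_one_div_cancel hcard.ne']
  · rw [← hM]
    refine le_trans ?_ h2
    have h3 : ∀ t : ℕ, ∑ i ∈ SD b D k, ((1 / ((SD b D k).card : ℝ) : ℝ) : ℂ) * ee ((t : ℝ) / M * f (i : ℕ)) =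
        ∑ n ∈ range (b ^ k), ((P b (wD D k) 0 k n : ℝ) : ℂ) * ee ((t : ℝ) / M * f n) := by
      intro t
      rw [← hZ]
      have h4 : ∀ n ∈ range (b ^ k), ((P b (wD D k) 0 k n : ℝ) : ℂ) * ee ((t : ℝ) / M * f n) =
          if n ∈ SD b D k then ((1 / Z : ℝ) : ℂ) * ee ((t : ℝ) / M * f n) else 0 := by
        intro n hn
        rw [P_wD b hb D k hD n hn, ← hZ]
        split_ifs
        · rfl
        · simp
      rw [sum_congr rfl h4, ← sum_filter]
      apply sum_congr _ fun _ _ => rfl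
      ext n
      rw [mem_filter]
      refine ⟨fun h => ⟨?_, h⟩, fun h => h.2⟩
      unfold SD at h
      exact (mem_filter.1 h).1
    simp only [h3]
    apply sum_le_sum_of_subset_of_nonneg
    · exact range_subset_range.2 hMN
    · intro t _ _
      positivity

/-- several independent laws -/
lemma pi_fiber {r : ℕ} (s : Fin r → Finset ℕ) (p : Fin r → ℕ → ℝ) (φ : Fin r → ℕ → ℕ) (p' : Fin r → ℕ → ℝ)
    (hp' : ∀ i v, p' i v = ∑ n ∈ (s i).filter (fun n => φ i n = v), p i n) (H : (Fin r → ℕ) → ℝ) :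
    ∑ m ∈ Fintype.piFinset (fun i => (s i).image (φ i)), H m * ∏ i, p' i (m i) =
      ∑ n ∈ Fintype.piFinset s, H (fun i => φ i (n i)) * ∏ i, p i (n i) := by
  classical
  rw [← sum_fiberwise_of_maps_to (s := Fintype.piFinset s) (t := Fintype.piFinset (fun i => (s i).image (φ i)))
    (g := fun n => fun i => φ i (n i)) (fun n hn => by
      rw [Fintype.mem_piFinset] at hn ⊢
      exact fun i => mem_image_of_mem _ (hn i))]
  apply sum_congr rfl
  intro m _
  have h1 : (Fintype.piFinset s).filter (fun n => (fun i => φ i (n i)) = m) =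
      Fintype.piFinset (fun i => (s i).filter (fun n => φ i n = m i)) := by
    ext n
    rw [mem_filter, Fintype.mem_piFinset, Fintype.mem_piFinset]
    constructor
    · rintro ⟨h2, h3⟩ i
      exact mem_filter.2 ⟨h2 i, congrFun h3 i⟩
    · intro h2
      exact ⟨fun i => (mem_filter.1 (h2 i)).1, funext fun i => (mem_filter.1 (h2 i)).2⟩
  rw [h1]
  have h2 : ∀ n ∈ Fintype.piFinset (fun i => (s i).filter (fun n => φ i n = m i)),
      H (fun i => φ i (n i)) * ∏ i, p i (n i) = H m * ∏ i, p i (n i) := by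
    intro n hn
    rw [Fintype.mem_piFinset] at hn
    have : (fun i => φ i (n i)) = m := funext fun i => (mem_filter.1 (hn i)).2
    rw [this]
  rw [sum_congr rfl h2, ← mul_sum, ← prod_univ_sum]
  congr 1
  apply prod_congr rfl
  intro i _
  exact hp' i (m i)

end Pool.Agent.HP25.OS
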