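import Pool.Agent.HP25.PD.D

set_option autoImplicit false

/-! Moments of the exponential sums over integers close to real numbers, with weights. -/

namespace Pool.Agent.HP25.OS
open Finset
open Pool.Agent.H807R2.Dav
open Pool.Agent.H373R2.T7
open Pool.Agent.TH872.Sq
open Pool.Agent.HP25.PD

variable {ι : Type}

open Classical in
/-- the mass of the pairs with close values -/
lemma mass2 (s : Finset ι) (p : ι → ℝ) (hp : ∀ i ∈ s, 0 ≤ p i) (g : ι → ℝ) (T M : ℕ) (hT : 1 ≤ T) (hM1 : 1 ≤ M) (R : ℝ)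
    (hR : 6 * T * R ≤ M) :
    (∑ a ∈ s, ∑ b ∈ s, (if |g a - g b| ≤ R then p a * p b else 0)) * T ≤
      8 * ∑ t ∈ range T, ‖∑ i ∈ s, ((p i : ℝ) : ℂ) * ee ((t : ℝ) / M * g i)‖ ^ 2 := by
  have hTr : (1 : ℝ) ≤ T := by exact_mod_cast hT
  have hMr : (1 : ℝ) ≤ M := by exact_mod_cast hM1
  obtain ⟨H, hH⟩ : ∃ H : ℤ → ℝ, ∀ t, H t = ‖∑ i ∈ s, ((p i : ℝ) : ℂ) * ee ((t : ℝ) / M * g i)‖ ^ 2 := ⟨_, fun _ => rfl⟩
  -- lower bound
  have h1 : (∑ a ∈ s, ∑ b ∈ s, (if |g a - g b| ≤ R then p a * p b else 0)) * ((T : ℝ) / 2) ^ 2 ≤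
      ∑ a ∈ s, ∑ b ∈ s, p a * p b * ‖∑ t ∈ range T, ee ((t : ℝ) * ((g a - g b) / M))‖ ^ 2 := by
    rw [sum_mul]
    apply sum_le_sum
    intro a ha
    rw [sum_mul]
    apply sum_le_sum
    intro b hb
    have hab := mul_nonneg (hp a ha) (hp b hb)
    split_ifs with h
    · apply mul_le_mul_of_nonneg_left _ hab
      apply pow_le_pow_left₀ (by positivity)
      apply big_sum
      rw [abs_div, abs_of_pos (by linarith : (0 : ℝ) < M), div_mul_eq_mul_div, div_le_div_iff₀ (by linarith) (by norm_num)]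
      have h2 : |g a - g b| * T ≤ R * T := mul_le_mul_of_nonneg_right h (by linarith)
      linarith
    · rw [zero_mul]
      positivity
  -- evaluation
  have h2 : ∑ a ∈ s, ∑ b ∈ s, p a * p b * ‖∑ t ∈ range T, ee ((t : ℝ) * ((g a - g b) / M))‖ ^ 2 =
      ∑ t ∈ range T, ∑ t' ∈ range T, H ((t : ℤ) - t') := by
    apply Complex.ofReal_injective
    push_cast
    have f1 : ∀ a b, ((‖∑ t ∈ range T, ee ((t : ℝ) * ((g a - g b) / M))‖ : ℂ)) ^ 2 =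
        ∑ t ∈ range T, ∑ t' ∈ range T, ee ((((t : ℤ) - t' : ℤ) : ℝ) / M * (g a - g b)) := by
      intro a b
      rw [← Complex.mul_conj', map_sum, sum_mul_sum]
      apply sum_congr rfl
      intro t _
      apply sum_congr rfl
      intro t' _
      rw [Pool.Agent.H373R2.T7.conj_ee, ← ee_add]
      congr 1
      push_cast
      ring
    have f2 : ∀ t t' : ℕ, ((H ((t : ℤ) - t') : ℝ) : ℂ) =
        ∑ a ∈ s, ∑ b ∈ s, ((p a : ℝ) : ℂ) * ((p b : ℝ) : ℂ) * ee ((((t : ℤ) - t' : ℤ) : ℝ) / M * (g a - g b)) := by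
      intro t t'
      rw [hH]
      push_cast
      rw [← Complex.mul_conj', map_sum, sum_mul_sum]
      apply sum_congr rfl
      intro a _
      apply sum_congr rfl
      intro b _
      rw [map_mul, Complex.conj_ofReal, Pool.Agent.H373R2.T7.conj_ee]
      have e1 : ee (((t : ℝ) - t') / M * (g a - g b)) = ee (((t : ℝ) - t') / M * g a) * ee (-(((t : ℝ) - t') / M * g b)) := by
        rw [← ee_add]
        congr 1
        ring
      rw [e1]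
      ring
    simp only [f1, f2, mul_sum]
    rw [sum_congr rfl (fun a _ => sum_comm), sum_comm]
    apply sum_congr rfl
    intro t _
    rw [sum_congr rfl (fun a _ => sum_comm), sum_comm]
  rw [h2] at h1
  have h3 := fold T H (fun t => by rw [hH]; positivity) (fun t => by
    rw [hH, hH]
    congr 1
    rw [← Complex.norm_conj (∑ i ∈ s, ((p i : ℝ) : ℂ) * ee ((t : ℝ) / M * g i)), map_sum]
    congr 1
    apply sum_congr rfl
    intro i _
    rw [map_mul, Complex.conj_ofReal, Pool.Agent.H373R2.T7.conj_ee]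
    congr 2
    push_cast
    ring)
  have h4 := h1.trans h3
  have e2 : ∑ t ∈ range T, H t = ∑ t ∈ range T, ‖∑ i ∈ s, ((p i : ℝ) : ℂ) * ee ((t : ℝ) / M * g i)‖ ^ 2 := by
    apply sum_congr rfl
    intro t _
    rw [hH]
    push_cast
    rfl
  rw [e2] at h4
  obtain ⟨X, hX⟩ : ∃ X, X = ∑ t ∈ range T, ‖∑ i ∈ s, ((p i : ℝ) : ℂ) * ee ((t : ℝ) / M * g i)‖ ^ 2 := ⟨_, rfl⟩
  rw [← hX] at h4 ⊢
  obtain ⟨Z, hZ⟩ : ∃ Z, Z = ∑ a ∈ s, ∑ b ∈ s, (if |g a - g b| ≤ R then p a * p b else 0) := ⟨_, rfl⟩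
  rw [← hZ] at h4 ⊢
  have h5 : (Z * T) * T ≤ (8 * X) * T := by nlinarith
  exact le_of_mul_le_mul_right h5 (by linarith)

/-- powers -/
lemma pow_tuples (q : ℕ) (s : Finset ι) (C : ι → ℂ) (g : ι → ℝ) (x : ℝ) :
    (∑ i ∈ s, C i * ee (x * g i)) ^ q =
      ∑ v ∈ Fintype.piFinset (fun _ : Fin q => s), (∏ j, C (v j)) * ee (x * ∑ j, g (v j)) := by
  classical
  have h1 : (∑ i ∈ s, C i * ee (x * g i)) ^ q = ∏ _j : Fin q, ∑ i ∈ s, C i * ee (x * g i) := by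
    rw [prod_const, card_univ, Fintype.card_fin]
  rw [h1, Finset.prod_univ_sum]
  apply sum_congr rfl
  intro v _
  rw [prod_mul_distrib, ee_sum, mul_sum]

/-- **Moments.** If the moment for the real numbers `g i` is bounded, so is the one for the integers `φ i` close to them. -/
theorem moment_near (q : ℕ) (s : Finset ι) (p : ι → ℝ) (hp : ∀ i ∈ s, 0 ≤ p i) (g : ι → ℝ) (φ : ι → ℤ) (Δ : ℝ)
    (hφ : ∀ i ∈ s, |(φ i : ℝ) - g i| ≤ Δ) (R : ℕ) (hR : ∀ i ∈ s, |φ i| ≤ R) (T M M' : ℕ) (hT : 1 ≤ T) (hM1 : 1 ≤ M)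
    (hM : 12 * q * T * Δ ≤ M) (hM' : 2 * q * R < M') (C : ℝ)
    (hmom : ∑ t ∈ range T, ‖∑ i ∈ s, ((p i : ℝ) : ℂ) * ee ((t : ℝ) / M * g i)‖ ^ (2 * q) ≤ C) :
    (∑ t ∈ range M', ‖∑ i ∈ s, ((p i : ℝ) : ℂ) * ee ((t : ℝ) * ((φ i : ℝ) / M'))‖ ^ (2 * q)) * T ≤ 8 * C * M' := by
  classical
  obtain ⟨S, hS⟩ : ∃ S : Finset (Fin q → ι), S = Fintype.piFinset (fun _ : Fin q => s) := ⟨_, rfl⟩
  obtain ⟨P, hP⟩ : ∃ P : (Fin q → ι) → ℝ, ∀ v, P v = ∏ j, p (v j) := ⟨_, fun _ => rfl⟩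
  obtain ⟨G, hG⟩ : ∃ G : (Fin q → ι) → ℝ, ∀ v, G v = ∑ j, g (v j) := ⟨_, fun _ => rfl⟩
  obtain ⟨Φ, hΦ⟩ : ∃ Φ : (Fin q → ι) → ℤ, ∀ v, Φ v = ∑ j, φ (v j) := ⟨_, fun _ => rfl⟩
  have hmem : ∀ v ∈ S, ∀ j, v j ∈ s := by
    intro v hv j
    rw [hS, Fintype.mem_piFinset] at hv
    exact hv j
  have hP0 : ∀ v ∈ S, 0 ≤ P v := by
    intro v hv
    rw [hP]
    exact prod_nonneg fun j _ => hp _ (hmem v hv j)
  have hmass := mass2 S P hP0 G T M hT hM1 (2 * q * Δ) (by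
    refine le_trans (le_of_eq ?_) hM
    ring)
  have e1 : ∑ t ∈ range T, ‖∑ v ∈ S, ((P v : ℝ) : ℂ) * ee ((t : ℝ) / M * G v)‖ ^ 2 =
      ∑ t ∈ range T, ‖∑ i ∈ s, ((p i : ℝ) : ℂ) * ee ((t : ℝ) / M * g i)‖ ^ (2 * q) := by
    apply sum_congr rfl
    intro t _
    have h1 := pow_tuples q s (fun i => ((p i : ℝ) : ℂ)) g ((t : ℝ) / M)
    rw [← hS] at h1
    have h2 : ‖∑ i ∈ s, ((p i : ℝ) : ℂ) * ee ((t : ℝ) / M * g i)‖ ^ (2 * q) =
        ‖(∑ i ∈ s, ((p i : ℝ) : ℂ) * ee ((t : ℝ) / M * g i)) ^ q‖ ^ 2 := by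
      rw [norm_pow, ← pow_mul, mul_comm]
    rw [h2, h1]
    congr 2
    apply sum_congr rfl
    intro v _
    rw [hP, hG]
    push_cast
    rfl
  rw [e1] at hmass
  have hM0 : 1 ≤ M' := by omega
  have e2 : ∑ t ∈ range M', ‖∑ i ∈ s, ((p i : ℝ) : ℂ) * ee ((t : ℝ) * ((φ i : ℝ) / M'))‖ ^ (2 * q) =
      ∑ t ∈ range M', ‖∑ v ∈ S, ((P v : ℝ) : ℂ) * ee ((t : ℝ) * ((Φ v : ℝ) / M'))‖ ^ 2 := by
    apply sum_congr rfl
    intro t _
    have h1 := pow_tuples q s (fun i => ((p i : ℝ) : ℂ)) (fun i => (φ i : ℝ)) ((t : ℝ) / M')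
    rw [← hS] at h1
    have h2 : ∑ i ∈ s, ((p i : ℝ) : ℂ) * ee ((t : ℝ) * ((φ i : ℝ) / M')) = ∑ i ∈ s, ((p i : ℝ) : ℂ) * ee ((t : ℝ) / M' * (φ i : ℝ)) := by
      apply sum_congr rfl
      intro i _
      congr 2
      ring
    have h3 : ‖∑ i ∈ s, ((p i : ℝ) : ℂ) * ee ((t : ℝ) / M' * (φ i : ℝ))‖ ^ (2 * q) =
        ‖(∑ i ∈ s, ((p i : ℝ) : ℂ) * ee ((t : ℝ) / M' * (φ i : ℝ))) ^ q‖ ^ 2 := by
      rw [norm_pow, ← pow_mul, mul_comm]
    rw [h2, h3, h1]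
    congr 2
    apply sum_congr rfl
    intro v _
    rw [hP, hΦ]
    push_cast
    congr 2
    ring
  have e3 : ∑ t ∈ range M', ‖∑ v ∈ S, ((P v : ℝ) : ℂ) * ee ((t : ℝ) * ((Φ v : ℝ) / M'))‖ ^ 2 =
      M' * ∑ a ∈ S, ∑ b ∈ S, (if (M' : ℤ) ∣ Φ a - Φ b then P a * P b else 0) := by
    have h1 := sq_expand S (fun v => ((P v : ℝ) : ℂ)) Φ M' hM0
    apply Complex.ofReal_injective
    rw [h1]
    push_cast
    rw [mul_sum]
    apply sum_congr rfl
    intro a _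
    rw [mul_sum]
    apply sum_congr rfl
    intro b _
    rw [Complex.conj_ofReal]
    split_ifs
    · push_cast; ring
    · push_cast; ring
  have e4 : ∑ a ∈ S, ∑ b ∈ S, (if (M' : ℤ) ∣ Φ a - Φ b then P a * P b else 0) ≤
      ∑ a ∈ S, ∑ b ∈ S, (if |G a - G b| ≤ 2 * q * Δ then P a * P b else 0) := by
    apply sum_le_sum
    intro a ha
    apply sum_le_sum
    intro b hb
    have hab := mul_nonneg (hP0 a ha) (hP0 b hb)
    have hcl : ∀ v ∈ S, |(Φ v : ℝ) - G v| ≤ q * Δ := by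
      intro v hv
      rw [hΦ, hG]
      push_cast
      rw [← sum_sub_distrib]
      refine (abs_sum_le_sum_abs _ _).trans ?_
      refine (sum_le_sum fun j _ => hφ _ (hmem v hv j)).trans (le_of_eq ?_)
      rw [sum_const, card_univ, Fintype.card_fin, nsmul_eq_mul]
    have hsz : ∀ v ∈ S, |Φ v| ≤ q * R := by
      intro v hv
      rw [hΦ]
      refine (abs_sum_le_sum_abs _ _).trans ?_
      refine (sum_le_sum fun j _ => hR _ (hmem v hv j)).trans (le_of_eq ?_)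
      rw [sum_const, card_univ, Fintype.card_fin, nsmul_eq_mul]
    split_ifs with h h'
    · exact le_rfl
    · exfalso
      apply h'
      have h0 : Φ a - Φ b = 0 := by
        apply Int.eq_zero_of_abs_lt_dvd h
        have g1 := hsz a ha
        have g2 := hsz b hb
        have g3 : |Φ a - Φ b| ≤ |Φ a| + |Φ b| := abs_sub _ _
        have g4 : ((2 * q * R : ℕ) : ℤ) < M' := by exact_mod_cast hM'
        push_cast at g4
        linarith
      have h0' : (Φ a : ℝ) - Φ b = 0 := by exact_mod_cast h0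
      have g1 := abs_le.1 (hcl a ha)
      have g2 := abs_le.1 (hcl b hb)
      rw [abs_le]
      constructor <;> linarith [g1.1, g1.2, g2.1, g2.2]
    · exact hab
    · exact le_rfl
  rw [e2, e3]
  have hM'0 : (0 : ℝ) ≤ M' := Nat.cast_nonneg _
  have hT0 : (0 : ℝ) ≤ T := Nat.cast_nonneg _
  calc (M' : ℝ) * (∑ a ∈ S, ∑ b ∈ S, (if (M' : ℤ) ∣ Φ a - Φ b then P a * P b else 0)) * T ≤
      M' * ((∑ a ∈ S, ∑ b ∈ S, (if |G a - G b| ≤ 2 * q * Δ then P a * P b else 0)) * T) := by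
        rw [mul_assoc]
        apply mul_le_mul_of_nonneg_left _ hM'0
        exact mul_le_mul_of_nonneg_right e4 hT0
    _ ≤ M' * (8 * C) := by
        apply mul_le_mul_of_nonneg_left _ hM'0
        exact hmass.trans (mul_le_mul_of_nonneg_left hmom (by norm_num))
    _ = _ := by ring

end Pool.Agent.HP25.OS
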