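import Pool.Agent.HP25.OS.B
import Pool.Agent.TH872.Sq.W11

set_option autoImplicit false

/-! One shift close to random real numbers: the von Mangoldt function and its model; nice functions. -/

namespace Pool.Agent.HP25.OS
open Finset
open Pool.Agent.H807R2.Dav
open Pool.Agent.H373R2.T7
open Pool.Agent.W93.DG
open Pool.Agent.TH872.Sq
open Pool.Agent.HP25.PD
open Pool.Agent.W93.LM (Nice)

variable {ι : Type}

/-- comparison of the logarithms -/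
lemma logs (F₀ F₁ W : ℕ) (hF₀ : 1 ≤ F₀) (hF₁ : 1 ≤ F₁) (K : ℝ) : ∃ K₀ : ℕ, ∀ Y : ℕ, K₀ ≤ Y → ∀ N : ℕ, N ≤ F₀ * Y → Y ≤ F₀ * N →
    K ≤ Nat.log 2 Y ∧ 1 ≤ Real.log N ∧ 1 ≤ Real.log ((F₁ * Y : ℕ) : ℝ) ∧ Real.log N ≤ (Nat.log 2 Y : ℝ) ^ 2 ∧
    (Nat.log 2 Y : ℝ) ≤ Real.log N ^ 2 ∧ Real.log ((F₁ * Y : ℕ) : ℝ) ≤ (Nat.log 2 Y : ℝ) ^ 2 ∧
    (Nat.log 2 Y : ℝ) ≤ Real.log ((F₁ * Y : ℕ) : ℝ) ^ 2 ∧ Real.log ((F₁ * Y : ℕ) : ℝ) ≤ Real.log N ^ 2 ∧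
    Real.log N ≤ Real.log ((F₁ * Y : ℕ) : ℝ) ^ 2 ∧ (Nat.log 2 Y) ^ W ≤ Y := by
  have hF0r : (1 : ℝ) ≤ F₀ := by exact_mod_cast hF₀
  have hF1r : (1 : ℝ) ≤ F₁ := by exact_mod_cast hF₁
  have hA0 : 0 ≤ Real.log F₀ := Real.log_nonneg hF0r
  have hA1 : 0 ≤ Real.log F₁ := Real.log_nonneg hF1r
  obtain ⟨K1, hK1⟩ := exists_nat_ge (|K| + 16 * Real.log F₀ + 16 * Real.log F₁ + 32)
  -- powers of the logarithm
  obtain ⟨K2, hK2⟩ : ∃ K2 : ℕ, ∀ m : ℕ, K2 ≤ m → m ^ W ≤ 2 ^ m := by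
    have hlim := tendsto_pow_const_mul_const_pow_of_abs_lt_one W (r := (1 / 2 : ℝ)) (by rw [abs_of_pos (by norm_num)]; norm_num)
    have h2 := hlim.eventually (gt_mem_nhds (show (0 : ℝ) < 1 by norm_num))
    rw [Filter.eventually_atTop] at h2
    obtain ⟨n0, h2⟩ := h2
    refine ⟨n0, fun m hm => ?_⟩
    have h3 := h2 m hm
    have h4 : (0 : ℝ) < 2 ^ m := by positivity
    have h5 : (m : ℝ) ^ W ≤ 2 ^ m := by
      rw [one_div, inv_pow, ← div_eq_mul_inv, div_lt_one h4] at h3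
      exact h3.le
    exact_mod_cast h5
  refine ⟨2 ^ (K1 + K2 + 1), fun Y hY N hN1 hN2 => ?_⟩
  obtain ⟨k, hk⟩ : ∃ k, k = Nat.log 2 Y := ⟨_, rfl⟩
  rw [← hk]
  have hY0 : Y ≠ 0 := by
    have : 0 < 2 ^ (K1 + K2 + 1) := by positivity
    omega
  have hk1 : K1 + K2 + 1 ≤ k := by
    rw [hk]
    exact Nat.le_log_of_pow_le (by norm_num) hY
  have hYl : 2 ^ k ≤ Y := by rw [hk]; exact Nat.pow_log_le_self 2 hY0
  have hYu : Y < 2 ^ (k + 1) := by rw [hk]; exact Nat.lt_pow_succ_log_self (by norm_num) Y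
  have hkr : (K1 : ℝ) + 1 ≤ k := by exact_mod_cast (by omega : K1 + 1 ≤ k)
  have hYr : (0 : ℝ) < Y := by exact_mod_cast Nat.pos_of_ne_zero hY0
  have hN0 : 0 < N := by
    rcases Nat.eq_zero_or_pos N with h | h
    · rw [h, mul_zero] at hN2
      omega
    · exact h
  have hNr : (0 : ℝ) < N := by exact_mod_cast hN0
  have hl2 := Real.log_two_gt_d9
  have hl2' := Real.log_two_lt_d9
  have hlYl : (k : ℝ) * Real.log 2 ≤ Real.log Y := by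
    rw [← Real.log_pow]
    apply Real.log_le_log (by positivity)
    exact_mod_cast hYl
  have hlYu : Real.log Y ≤ (k + 1) * Real.log 2 := by
    have h1 : Real.log Y ≤ Real.log ((2 : ℝ) ^ (k + 1)) := by
      apply Real.log_le_log hYr
      exact_mod_cast hYu.le
    rw [Real.log_pow] at h1
    push_cast at h1
    exact h1
  have hlN1 : Real.log N ≤ Real.log F₀ + Real.log Y := by
    rw [← Real.log_mul (by positivity) hYr.ne']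
    apply Real.log_le_log hNr
    exact_mod_cast hN1
  have hlN2 : Real.log Y ≤ Real.log F₀ + Real.log N := by
    rw [← Real.log_mul (by positivity) hNr.ne']
    apply Real.log_le_log hYr
    exact_mod_cast hN2
  have hlF : Real.log ((F₁ * Y : ℕ) : ℝ) = Real.log F₁ + Real.log Y := by
    push_cast
    rw [Real.log_mul (by positivity) hYr.ne']
  rw [hlF]
  have habs := le_abs_self K
  have habs0 := abs_nonneg K
  have b1 : 16 * Real.log F₀ + 16 * Real.log F₁ + 32 ≤ k := by linarith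
  have c1 : (k : ℝ) / 2 ≤ Real.log N := by nlinarith
  have c2 : Real.log N ≤ k := by nlinarith
  have c3 : (k : ℝ) / 2 ≤ Real.log F₁ + Real.log Y := by nlinarith
  have c4 : Real.log F₁ + Real.log Y ≤ k := by nlinarith
  refine ⟨by linarith, by linarith, by linarith, by nlinarith, by nlinarith, by nlinarith, by nlinarith, by nlinarith, by nlinarith, ?_⟩
  exact (hK2 k (by omega)).trans hYl

/-- **The von Mangoldt function and its model.** -/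
theorem one_vm (q : ℕ) (hq : 1 ≤ q) (C₀ : ℝ) (hC₀ : 0 < C₀) (F F₀ W U : ℕ) (hF₀ : 1 ≤ F₀) : ∃ B : ℕ, ∀ E : ℕ, ∃ K₀ : ℕ,
    ∀ Y : ℕ, K₀ ≤ Y → ∀ N : ℕ, N ≤ F₀ * Y → Y ≤ F₀ * N → ∀ (s : Finset ι) (p g : ι → ℝ), Mo q C₀ Y s p g → ∀ φ : ι → ℤ,
    (∀ i ∈ s, |(φ i : ℝ) - g i| ≤ (Nat.log 2 Y : ℝ) ^ W) → (∀ i ∈ s, |φ i| ≤ ((F * Y : ℕ) : ℤ)) →
    ∀ z : ℕ, Real.log N ^ B ≤ z → (z : ℝ) ≤ Real.log N ^ E → ∀ X : ℕ, X ≤ F₀ * Y → ∀ σ : ℤ, (σ = 1 ∨ σ = -1) →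
    ∀ G : ι → ℝ, (∀ i ∈ s, |G i| ≤ 1) →
    ∑ c ∈ Icc 1 X, |∑ i ∈ s, p i * (G i * (lamI (φ i + σ * (c : ℤ)) - lamzI z (φ i + σ * (c : ℤ))))| ≤ N / Real.log N ^ U := by
  obtain ⟨U0, K1, hgen⟩ := one_gen (ι := ι) q hq C₀ hC₀ F F₀ W 5 (2 * U + 1)
  obtain ⟨B, hB⟩ := sup_diff (2 * U0)
  refine ⟨2 * B, fun E => ?_⟩
  obtain ⟨N3, hN3⟩ := hB (2 * E)
  obtain ⟨N4, hN4⟩ := Pool.Agent.W93.TD.G_sq (2 * E)
  obtain ⟨F₁, hF₁⟩ : ∃ F₁ : ℕ, F₁ = F + F₀ + 1 := ⟨_, rfl⟩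
  obtain ⟨K2, hK2⟩ := logs F₀ F₁ W hF₀ (by omega) (K1 + F₀ + 14)
  rw [← hF₁] at hgen
  refine ⟨K2 + N3 + N4 + 1, fun Y hY N hN1 hN2 s p g hMo φ hφ hsz z hz1 hz2 X hX σ hσ G hG => ?_⟩
  obtain ⟨k, hk⟩ : ∃ k, k = Nat.log 2 Y := ⟨_, rfl⟩
  obtain ⟨l1, l2, l3, l4, l5, l6, l7, l8, l9, l10⟩ := hK2 Y (by omega) N hN1 hN2
  rw [← hk] at l1 l4 l5 l6 l7 l10 hφ
  obtain ⟨L, hL⟩ : ∃ L, L = Real.log N := ⟨_, rfl⟩
  obtain ⟨M, hM⟩ : ∃ M, M = F₁ * Y := ⟨_, rfl⟩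
  obtain ⟨L', hL'⟩ : ∃ L', L' = Real.log M := ⟨_, rfl⟩
  rw [← hM] at l3 l6 l7 l8 l9
  rw [← hL'] at l3 l6 l7 l8 l9
  rw [← hL] at l2 l4 l5 l8 l9 hz1 hz2 ⊢
  have hK1r : (0 : ℝ) ≤ K1 := Nat.cast_nonneg _
  have hF₀r : (1 : ℝ) ≤ F₀ := by exact_mod_cast hF₀
  have hk14 : (14 : ℝ) ≤ k := by linarith
  have hk0 : (0 : ℝ) < k := by linarith
  have hkK1 : K1 ≤ k := by
    have : (K1 : ℝ) ≤ k := by linarith
    exact_mod_cast this
  have hYM : Y ≤ M := by rw [hM]; exact Nat.le_mul_of_pos_left _ (by omega)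
  have hMr : (0 : ℝ) < M := by exact_mod_cast (by omega : 0 < M)
  have hNr : (0 : ℝ) ≤ N := Nat.cast_nonneg _
  have hYr : (0 : ℝ) < Y := by exact_mod_cast (by omega : 0 < Y)
  -- the range of `z`
  have hz1' : L' ^ B ≤ z := by
    refine le_trans ?_ hz1
    rw [pow_mul]
    exact pow_le_pow_left₀ (by linarith) l8 B
  have hz2' : (z : ℝ) ≤ L' ^ (2 * E) := by
    refine hz2.trans ?_
    rw [pow_mul]
    exact pow_le_pow_left₀ (by linarith) l9 E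
  have hz : 1 ≤ z := by
    have h1 : (1 : ℝ) ≤ L' ^ B := one_le_pow₀ l3
    exact_mod_cast h1.trans hz1'
  have hsup := hN3 M (by omega) z (by rw [← hL']; exact hz1') (by rw [← hL']; exact hz2')
  have hsq := hN4 M (by omega) M le_rfl z hz (by rw [← hL']; exact hz2')
  rw [FF_pars _ M M (by omega) le_rfl, ← hL'] at hsq
  have hsq2 : ∑ n ∈ Icc 1 M, (ArithmeticFunction.vonMangoldt n - lamz z n) ^ 2 ≤ M * (k : ℝ) ^ 5 := by
    refine (le_of_mul_le_mul_left hsq hMr).trans ?_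
    calc 14 * M * L' ^ 2 ≤ k * M * (((k : ℝ) ^ 2) ^ 2) := by
          apply mul_le_mul _ (pow_le_pow_left₀ (by linarith) l6 2) (by positivity) (by positivity)
          exact mul_le_mul_of_nonneg_right hk14 hMr.le
      _ = M * (k : ℝ) ^ 5 := by ring
  have hgen' := hgen k hkK1 Y l10 s p g hMo φ hφ hsz σ hσ X hX (fun n => ArithmeticFunction.vonMangoldt n - lamz z n)
  rw [← hM] at hgen'
  have hmain := hgen' hsq2 (by
      intro α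
      refine (hsup α).trans ?_
      apply div_le_div_of_nonneg_left hMr.le (by positivity)
      rw [← hL', pow_mul]
      exact pow_le_pow_left₀ hk0.le l7 U0) G hG
  have hfin : (Y : ℝ) / (k : ℝ) ^ (2 * U + 1) ≤ N / L ^ U := by
    rw [div_le_div_iff₀ (by positivity) (by positivity)]
    have h1 : (Y : ℝ) ≤ F₀ * N := by exact_mod_cast hN2
    have h2 : L ^ U ≤ (k : ℝ) ^ (2 * U) := by
      rw [pow_mul]
      exact pow_le_pow_left₀ (by linarith) l4 U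
    calc (Y : ℝ) * L ^ U ≤ (F₀ * N) * (k : ℝ) ^ (2 * U) := mul_le_mul h1 h2 (by positivity) (by positivity)
      _ ≤ (k * N) * (k : ℝ) ^ (2 * U) := by
          apply mul_le_mul_of_nonneg_right _ (by positivity)
          apply mul_le_mul_of_nonneg_right _ hNr
          linarith
      _ = _ := by ring
  refine le_trans (le_of_eq ?_) (hmain.trans hfin)
  apply sum_congr rfl
  intro c hc
  congr 1
  apply sum_congr rfl
  intro i hi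
  congr 2
  rw [mem_Icc] at hc
  have hx : φ i + σ * (c : ℤ) ≤ M := by
    have h1 := (abs_le.1 (hsz i hi)).2
    have h2 : ((c : ℕ) : ℤ) ≤ ((F₀ * Y : ℕ) : ℤ) := by exact_mod_cast hc.2.trans hX
    have h3 : σ * (c : ℤ) ≤ c := by rcases hσ with h | h <;> rw [h] <;> omega
    rw [hM, hF₁]
    push_cast at h1 h2 ⊢
    have : (0 : ℤ) ≤ (Y : ℤ) := Int.natCast_nonneg _
    linarith
  unfold lamI lamzI cut
  by_cases h5 : 1 ≤ φ i + σ * (c : ℤ)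
  · rw [if_pos h5, if_pos h5, if_pos ⟨h5, hx⟩]
  · rw [if_neg h5, if_neg h5, if_neg (fun h => h5 h.1), sub_zero]

/-- **Nice functions.** -/
theorem one_nice (q : ℕ) (hq : 1 ≤ q) (C₀ : ℝ) (hC₀ : 0 < C₀) (f : ℕ → ℝ) (hf : Nice (fun n => ((f n : ℝ) : ℂ)))
    (F F₀ W U : ℕ) (hF₀ : 1 ≤ F₀) : ∃ K₀ : ℕ,
    ∀ Y : ℕ, K₀ ≤ Y → ∀ N : ℕ, N ≤ F₀ * Y → Y ≤ F₀ * N → ∀ (s : Finset ι) (p g : ι → ℝ), Mo q C₀ Y s p g → ∀ φ : ι → ℤ,
    (∀ i ∈ s, |(φ i : ℝ) - g i| ≤ (Nat.log 2 Y : ℝ) ^ W) → (∀ i ∈ s, |φ i| ≤ ((F * Y : ℕ) : ℤ)) →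
    ∀ X : ℕ, X ≤ F₀ * Y → ∀ σ : ℤ, (σ = 1 ∨ σ = -1) → ∀ G : ι → ℝ, (∀ i ∈ s, |G i| ≤ 1) →
    ∑ c ∈ Icc 1 X, |∑ i ∈ s, p i * (G i * fx f (φ i + σ * (c : ℤ)))| ≤ N / Real.log N ^ U := by
  obtain ⟨U0, K1, hgen⟩ := one_gen (ι := ι) q hq C₀ hC₀ F F₀ W 0 (2 * U + 1)
  obtain ⟨N3, hN3⟩ := hf.2.1 (2 * U0)
  obtain ⟨F₁, hF₁⟩ : ∃ F₁ : ℕ, F₁ = F + F₀ + 1 := ⟨_, rfl⟩
  obtain ⟨K2, hK2⟩ := logs F₀ F₁ W hF₀ (by omega) (K1 + F₀ + 14)
  rw [← hF₁] at hgen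
  refine ⟨K2 + N3 + 1, fun Y hY N hN1 hN2 s p g hMo φ hφ hsz X hX σ hσ G hG => ?_⟩
  obtain ⟨k, hk⟩ : ∃ k, k = Nat.log 2 Y := ⟨_, rfl⟩
  obtain ⟨l1, l2, l3, l4, l5, l6, l7, l8, l9, l10⟩ := hK2 Y (by omega) N hN1 hN2
  rw [← hk] at l1 l4 l5 l6 l7 l10 hφ
  obtain ⟨L, hL⟩ : ∃ L, L = Real.log N := ⟨_, rfl⟩
  obtain ⟨M, hM⟩ : ∃ M, M = F₁ * Y := ⟨_, rfl⟩
  obtain ⟨L', hL'⟩ : ∃ L', L' = Real.log M := ⟨_, rfl⟩
  rw [← hM] at l3 l6 l7 l8 l9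
  rw [← hL'] at l3 l6 l7 l8 l9
  rw [← hL] at l2 l4 l5 l8 l9 ⊢
  have hK1r : (0 : ℝ) ≤ K1 := Nat.cast_nonneg _
  have hF₀r : (1 : ℝ) ≤ F₀ := by exact_mod_cast hF₀
  have hk14 : (14 : ℝ) ≤ k := by linarith
  have hk0 : (0 : ℝ) < k := by linarith
  have hkK1 : K1 ≤ k := by
    have : (K1 : ℝ) ≤ k := by linarith
    exact_mod_cast this
  have hYM : Y ≤ M := by rw [hM]; exact Nat.le_mul_of_pos_left _ (by omega)
  have hMr : (0 : ℝ) < M := by exact_mod_cast (by omega : 0 < M)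
  have hNr : (0 : ℝ) ≤ N := Nat.cast_nonneg _
  have hYr : (0 : ℝ) < Y := by exact_mod_cast (by omega : 0 < Y)
  have hf1 : ∀ n, |f n| ≤ 1 := by
    intro n
    have := hf.1 n
    rwa [Complex.norm_real, Real.norm_eq_abs] at this
  have hsup := hN3 M (by omega)
  have hgen' := hgen k hkK1 Y l10 s p g hMo φ hφ hsz σ hσ X hX f
  rw [← hM] at hgen'
  have hmain := hgen' (by
    rw [pow_zero, mul_one]
    calc ∑ n ∈ Icc 1 M, f n ^ 2 ≤ ∑ _n ∈ Icc 1 M, (1 : ℝ) := by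
          apply sum_le_sum
          intro n _
          rw [← sq_abs]
          exact pow_le_one₀ (abs_nonneg _) (hf1 n)
      _ = M := by rw [sum_const, Nat.card_Icc, Nat.add_sub_cancel, nsmul_eq_mul, mul_one]) (by
      intro α
      refine (hsup α).trans ?_
      apply div_le_div_of_nonneg_left hMr.le (by positivity)
      rw [← hL', pow_mul]
      exact pow_le_pow_left₀ hk0.le l7 U0) G hG
  have hfin : (Y : ℝ) / (k : ℝ) ^ (2 * U + 1) ≤ N / L ^ U := by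
    rw [div_le_div_iff₀ (by positivity) (by positivity)]
    have h1 : (Y : ℝ) ≤ F₀ * N := by exact_mod_cast hN2
    have h2 : L ^ U ≤ (k : ℝ) ^ (2 * U) := by
      rw [pow_mul]
      exact pow_le_pow_left₀ (by linarith) l4 U
    calc (Y : ℝ) * L ^ U ≤ (F₀ * N) * (k : ℝ) ^ (2 * U) := mul_le_mul h1 h2 (by positivity) (by positivity)
      _ ≤ (k * N) * (k : ℝ) ^ (2 * U) := by
          apply mul_le_mul_of_nonneg_right _ (by positivity)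
          apply mul_le_mul_of_nonneg_right _ hNr
          linarith
      _ = _ := by ring
  refine le_trans (le_of_eq ?_) (hmain.trans hfin)
  apply sum_congr rfl
  intro c hc
  congr 1
  apply sum_congr rfl
  intro i hi
  congr 2
  rw [mem_Icc] at hc
  have hx : φ i + σ * (c : ℤ) ≤ M := by
    have h1 := (abs_le.1 (hsz i hi)).2
    have h2 : ((c : ℕ) : ℤ) ≤ ((F₀ * Y : ℕ) : ℤ) := by exact_mod_cast hc.2.trans hX
    have h3 : σ * (c : ℤ) ≤ c := by rcases hσ with h | h <;> rw [h] <;> omega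
    rw [hM, hF₁]
    push_cast at h1 h2 ⊢
    have : (0 : ℤ) ≤ (Y : ℤ) := Int.natCast_nonneg _
    linarith
  rw [cut_fx f _ _ hx]

end Pool.Agent.HP25.OS
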