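import Pool.Agent.HP25.OS.C
import Pool.Agent.N469.PT.Ws

set_option autoImplicit false

/-! Laws of integers close to random real numbers. -/

namespace Pool.Agent.HP25.OS
open Finset
open Pool.Agent.H807R2.Dav
open Pool.Agent.H373R2.T7
open Pool.Agent.W93.DG
open Pool.Agent.TH872.Sq
open Pool.Agent.HP25.PD
open Pool.Agent.N469.PT (OneLaw)

/-- the class of the laws -/
def NL (q : ℕ) (C₀ : ℝ) (F F₀ W N : ℕ) (Ω : Finset ℕ) (p' : ℕ → ℝ) : Prop :=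
  ∃ (Y : ℕ) (s : Finset ℕ) (p g : ℕ → ℝ) (φ : ℕ → ℕ), N ≤ F₀ * Y ∧ Y ≤ F₀ * N ∧ Mo q C₀ Y s p g ∧
    (∀ i ∈ s, |(φ i : ℝ) - g i| ≤ (Nat.log 2 Y : ℝ) ^ W) ∧ (∀ i ∈ s, φ i ≤ F * Y) ∧ Ω = s.image φ ∧
    ∀ v, p' v = ∑ i ∈ s.filter (fun i => φ i = v), p i

lemma fiber (s : Finset ℕ) (p : ℕ → ℝ) (φ : ℕ → ℕ) (p' : ℕ → ℝ) (hp' : ∀ v, p' v = ∑ i ∈ s.filter (fun i => φ i = v), p i)
    (h : ℕ → ℝ) : ∑ v ∈ s.image φ, p' v * h v = ∑ i ∈ s, p i * h (φ i) := by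
  rw [← sum_fiberwise_of_maps_to (s := s) (t := s.image φ) (g := φ) (fun i hi => mem_image_of_mem φ hi)]
  apply sum_congr rfl
  intro v _
  rw [hp', sum_mul]
  apply sum_congr rfl
  intro i hi
  rw [(mem_filter.1 hi).2]

theorem oneLaw_NL (q : ℕ) (hq : 1 ≤ q) (C₀ : ℝ) (hC₀ : 0 < C₀) (F F₀ W U : ℕ) (hF₀ : 1 ≤ F₀) : OneLaw (NL q C₀ F F₀ W) 1 0 U := by
  obtain ⟨B, hB⟩ := one_vm (ι := ℕ) q hq C₀ hC₀ F F₀ W U hF₀
  refine ⟨F * F₀, B, fun E => ?_⟩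
  obtain ⟨K₀, hK₀⟩ := hB E
  obtain ⟨K1, hK1⟩ := logs F₀ 1 (W + 4 * q * U + 1) hF₀ le_rfl (16 * C₀ + 1)
  refine ⟨F₀ * (K₀ + K1) + 1, fun N hN Ω p' hL cc hcc => ?_⟩
  obtain ⟨Y, s, p, g, φ, hN1, hN2, hMo, hφ, hsz, rfl, hp'⟩ := hL
  have hcc0 : cc = 0 := by omega
  subst hcc0
  have hYK : K₀ + K1 ≤ Y := by
    by_contra hcon
    push Not at hcon
    have : F₀ * Y ≤ F₀ * (K₀ + K1) := Nat.mul_le_mul_left _ hcon.le
    omega
  obtain ⟨l1, l2, -, l4, l5, -, -, -, -, l10⟩ := hK1 Y (by omega) N hN1 hN2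
  obtain ⟨k, hk⟩ : ∃ k, k = Nat.log 2 Y := ⟨_, rfl⟩
  obtain ⟨L, hL⟩ : ∃ L, L = Real.log N := ⟨_, rfl⟩
  have hφ' := hφ
  rw [← hk] at l1 l4 l5 l10 hφ
  rw [← hL] at l2 l4 l5 ⊢
  have hk1 : (1 : ℝ) ≤ k := by linarith
  have hk1' : 1 ≤ k := by exact_mod_cast hk1
  have hk0 : (0 : ℝ) < k := by linarith
  have hYpos : 0 < Y := by
    rcases Nat.eq_zero_or_pos Y with h | h
    · rw [h, mul_zero] at hN1
      omega
    · exact h
  have hY0 : (0 : ℝ) < Y := by exact_mod_cast hYpos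
  have hφz : ∀ i ∈ s, |(((φ i : ℕ) : ℤ) : ℝ) - g i| ≤ (k : ℝ) ^ W := fun i hi => by
    have := hφ i hi
    push_cast
    exact this
  have hp'0 : ∀ v, 0 ≤ p' v := by
    intro v
    rw [hp']
    exact sum_nonneg fun i hi => hMo.nonneg i (mem_filter.1 hi).1
  refine ⟨fun v _ => hp'0 v, ?_, ?_, ?_, ?_⟩
  · have h1 := fiber s p φ p' hp' (fun _ => 1)
    simp only [mul_one] at h1
    rw [h1, hMo.sum]
  · intro v _
    have hkW : k ^ W ≤ Y := le_trans (Nat.pow_le_pow_right hk1' (by omega)) l10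
    have h1 := atom hq hC₀ hMo (fun i => ((φ i : ℕ) : ℤ)) k W hk1' hkW hφz ((v : ℕ) : ℤ)
    have h2 : ∑ i ∈ s.filter (fun i => ((φ i : ℕ) : ℤ) = ((v : ℕ) : ℤ)), p i = p' v := by
      rw [hp']
      apply sum_congr _ fun _ _ => rfl
      ext i
      simp only [mem_filter, Nat.cast_inj]
    rw [h2] at h1
    have h3 : p' v ^ (2 * q) ≤ (1 / L ^ U) ^ (2 * q) := by
      have hLU : (0 : ℝ) < L ^ U := by positivity
      rw [div_pow, one_pow, le_div_iff₀ (by positivity)]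
      have h4 : (k : ℝ) ^ (W + 4 * q * U + 1) ≤ Y := by exact_mod_cast l10
      have h5 : (L ^ U) ^ (2 * q) ≤ (k : ℝ) ^ (4 * q * U) := by
        calc (L ^ U) ^ (2 * q) ≤ (((k : ℝ) ^ 2) ^ U) ^ (2 * q) :=
              pow_le_pow_left₀ (by positivity) (pow_le_pow_left₀ (by linarith) l4 U) _
          _ = _ := by rw [← pow_mul, ← pow_mul]; congr 1; ring
      have h6 : (p' v ^ (2 * q) * (L ^ U) ^ (2 * q)) * Y ≤ 1 * Y := by
        calc (p' v ^ (2 * q) * (L ^ U) ^ (2 * q)) * Y = (p' v ^ (2 * q) * Y) * (L ^ U) ^ (2 * q) := by ring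
          _ ≤ (16 * C₀ * (k : ℝ) ^ W) * (k : ℝ) ^ (4 * q * U) := by
              apply mul_le_mul h1 h5 (by positivity) (by positivity)
          _ ≤ (k * (k : ℝ) ^ W) * (k : ℝ) ^ (4 * q * U) := by
              apply mul_le_mul_of_nonneg_right _ (by positivity)
              apply mul_le_mul_of_nonneg_right _ (by positivity)
              linarith
          _ = (k : ℝ) ^ (W + 4 * q * U + 1) := by ring
          _ ≤ 1 * Y := by rw [one_mul]; exact h4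
      exact le_of_mul_le_mul_right h6 hY0
    exact (pow_le_pow_iff_left₀ (hp'0 v) (by positivity) (by omega : 2 * q ≠ 0)).1 h3
  · intro v hv
    rw [mem_image] at hv
    obtain ⟨i, hi, rfl⟩ := hv
    have h1 := hsz i hi
    have h2 : F * Y ≤ F * (F₀ * N) := Nat.mul_le_mul_left _ hN2
    calc 0 + 1 * φ i ≤ F * (F₀ * N) := by omega
      _ = _ := by ring
  · intro z hz1 hz2 Kc hKc G hG
    have h1 := fiber s p φ p' hp' (fun v => |∑ n ∈ Icc 1 N, G n * (lamI ((n : ℤ) + ((0 + 1 * v : ℕ) : ℤ)) -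
      lamzI z ((n : ℤ) + ((0 + 1 * v : ℕ) : ℤ)))|)
    rw [h1]
    have h2 := dual (s := s) (p := p) N (N / L ^ U) (fun i n => lamI ((n : ℤ) + ((0 + 1 * φ i : ℕ) : ℤ)) -
      lamzI z ((n : ℤ) + ((0 + 1 * φ i : ℕ) : ℤ))) (fun G' hG' => by
        have h3 := hK₀ Y (by omega) N hN1 hN2 s p g hMo (fun i => ((φ i : ℕ) : ℤ)) (fun i hi => by
          have := hφ' i hi
          push_cast
          exact this) (fun i hi => by
          rw [abs_of_nonneg (Int.natCast_nonneg _)]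
          exact_mod_cast hsz i hi) z (by rw [← hL]; exact hz1) (by rw [← hL]; exact hz2) N hN1 1 (Or.inl rfl) G' hG'
        rw [← hL] at h3
        refine le_trans (le_of_eq ?_) h3
        apply sum_congr rfl
        intro c _
        congr 1
        apply sum_congr rfl
        intro i _
        have e1 : (c : ℤ) + ((0 + 1 * φ i : ℕ) : ℤ) = ((φ i : ℕ) : ℤ) + 1 * (c : ℤ) := by
          push_cast
          ring
        rw [e1]) Kc hKc.le G hG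
    exact h2

end Pool.Agent.HP25.OS
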